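import Mathlib

/-!
# The relation module of a free presentation
-/

universe u v

namespace RelMod

variable {X : Type u} {G : Type v} [Group G]

/-- The relation module `R/[R,R]` (written additively) of the free presentation
`π : FreeGroup X →* G` with kernel `R`. -/
def RelationModule (π : FreeGroup X →* G) (_hπ : Function.Surjective π) : Type u :=
  Additive (Abelianization π.ker)

noncomputable instance (π : FreeGroup X →* G) (hπ : Function.Surjective π) :
    AddCommGroup (RelationModule π hπ) :=
  inferInstanceAs (AddCommGroup (Additive (Abelianization π.ker)))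

/-- The class `r[R,R]` of an element `r` of `R` in the relation module. -/
def RelationModule.mk (π : FreeGroup X →* G) (hπ : Function.Surjective π) (r : π.ker) :
    RelationModule π hπ :=
  Additive.ofMul (Abelianization.of r)

theorem exists_rep {H : Type u} [Group H] (x : Additive (Abelianization H)) :
    ∃ r : H, x = Additive.ofMul (Abelianization.of r) := by
  obtain ⟨r, hr⟩ := QuotientGroup.mk_surjective (s := commutator H) (Additive.toMul x)
  exact ⟨r, congrArg Additive.ofMul hr.symm⟩

/-- Conjugation by an element `f` of the free group, on `R/[R,R]`. -/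
def conjOn (π : FreeGroup X →* G) (f : FreeGroup X) :
    Additive (Abelianization π.ker) →+ Additive (Abelianization π.ker) :=
  MonoidHom.toAdditive (Abelianization.map ((MulAut.conjNormal f).toMonoidHom : π.ker →* π.ker))

/-- The action of the free group on `R/[R,R]` by conjugation. -/
def conjHom (π : FreeGroup X →* G) :
    FreeGroup X →* AddMonoid.End (Additive (Abelianization π.ker)) where
  toFun := conjOn π
  map_one' := by
    apply AddMonoidHom.ext
    intro x
    obtain ⟨r, rfl⟩ := exists_rep x
    change Additive.ofMul (Abelianization.map _ (Abelianization.of r)) =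
      Additive.ofMul (Abelianization.of r)
    rw [Abelianization.map_of]
    simp
  map_mul' f g := by
    apply AddMonoidHom.ext
    intro x
    obtain ⟨r, rfl⟩ := exists_rep x
    change Additive.ofMul (Abelianization.map _ (Abelianization.of r)) =
      Additive.ofMul (Abelianization.map _ (Abelianization.map _ (Abelianization.of r)))
    rw [Abelianization.map_of, Abelianization.map_of, Abelianization.map_of]
    simp

theorem conjHom_apply (π : FreeGroup X →* G) (f : FreeGroup X) (r : π.ker) :
    conjHom π f (Additive.ofMul (Abelianization.of r)) =
      Additive.ofMul (Abelianization.of (MulAut.conjNormal f r)) := rfl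

theorem ker_le_ker_conjHom (π : FreeGroup X →* G) : π.ker ≤ (conjHom π).ker := by
  intro f hf
  rw [MonoidHom.mem_ker]
  apply AddMonoidHom.ext
  intro x
  obtain ⟨r, rfl⟩ := exists_rep x
  change Additive.ofMul (Abelianization.of (MulAut.conjNormal f r)) =
    Additive.ofMul (Abelianization.of r)
  have h : MulAut.conjNormal f r = (⟨f, hf⟩ : π.ker) * r * (⟨f, hf⟩ : π.ker)⁻¹ := by
    apply Subtype.ext
    simp
  refine congrArg Additive.ofMul ?_
  rw [h, map_mul, map_mul, map_inv, mul_comm, inv_mul_cancel_left]

/-- The action of `G` on the relation module: `π f` acts as conjugation by `f`. -/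
noncomputable def relAction (π : FreeGroup X →* G) (hπ : Function.Surjective π) :
    G →* AddMonoid.End (Additive (Abelianization π.ker)) :=
  (QuotientGroup.lift π.ker (conjHom π) (ker_le_ker_conjHom π)).comp
    (QuotientGroup.quotientKerEquivOfSurjective π hπ).symm.toMonoidHom

theorem relAction_apply (π : FreeGroup X →* G) (hπ : Function.Surjective π) (f : FreeGroup X) :
    relAction π hπ (π f) = conjHom π f := by
  have : (QuotientGroup.quotientKerEquivOfSurjective π hπ).symm (π f) = (f : FreeGroup X ⧸ π.ker) := by
    rw [MulEquiv.symm_apply_eq]
    rfl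
  change QuotientGroup.lift π.ker (conjHom π) (ker_le_ker_conjHom π)
    ((QuotientGroup.quotientKerEquivOfSurjective π hπ).symm (π f)) = _
  rw [this]
  rfl

/-- The `ℤ[G]`-module structure on the relation module. -/
noncomputable instance (π : FreeGroup X →* G) (hπ : Function.Surjective π) :
    Module (MonoidAlgebra ℤ G) (RelationModule π hπ) :=
  Module.compHom (Additive (Abelianization π.ker))
    (MonoidAlgebra.lift ℤ (AddMonoid.End (Additive (Abelianization π.ker))) G
      (relAction π hπ)).toRingHom

theorem of_smul_mk (π : FreeGroup X →* G) (hπ : Function.Surjective π) (f : FreeGroup X)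
    (r : π.ker) : (MonoidAlgebra.of ℤ G (π f)) • RelationModule.mk π hπ r =
      RelationModule.mk π hπ ⟨f * r * f⁻¹, Subgroup.Normal.conj_mem inferInstance _ r.2 f⟩ := by
  change (MonoidAlgebra.lift ℤ (AddMonoid.End (Additive (Abelianization π.ker))) G
      (relAction π hπ) (MonoidAlgebra.of ℤ G (π f))) (Additive.ofMul (Abelianization.of r)) = _
  rw [MonoidAlgebra.lift_of, relAction_apply, conjHom_apply]
  rfl

end RelMod
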