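import Pool.Agent.Lib.MP_8396f3_al.NotOneRel
import Pool.Agent.Lib.MP_8396f3_al.RelModDef

/-!
# Assembly: from a finite certificate to a group with cyclic relation module which is not a
one-relator group
-/

universe u v

namespace RelMod

open scoped commutatorElement

section Span

variable {X : Type u} {G : Type v} [Group G]

theorem mk_mul (π : FreeGroup X →* G) (hπ : Function.Surjective π) (r s : π.ker) :
    RelationModule.mk π hπ (r * s) = RelationModule.mk π hπ r + RelationModule.mk π hπ s := by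
  change Additive.ofMul (Abelianization.of (r * s)) =
    Additive.ofMul (Abelianization.of r) + Additive.ofMul (Abelianization.of s)
  rw [map_mul, ofMul_mul]

theorem mk_inv (π : FreeGroup X →* G) (hπ : Function.Surjective π) (r : π.ker) :
    RelationModule.mk π hπ r⁻¹ = - RelationModule.mk π hπ r := by
  change Additive.ofMul (Abelianization.of r⁻¹) = -Additive.ofMul (Abelianization.of r)
  rw [map_inv, ofMul_inv]

theorem mk_one (π : FreeGroup X →* G) (hπ : Function.Surjective π) :
    RelationModule.mk π hπ 1 = 0 := by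
  change Additive.ofMul (Abelianization.of 1) = _
  rw [map_one, ofMul_one]
  rfl

/-- If `R = ⟪r⟫[R,R]` then the relation module is generated by the class of `r`. -/
theorem span_singleton_eq_top (π : FreeGroup X →* G) (hπ : Function.Surjective π) (r : π.ker)
    (h : π.ker ≤ Subgroup.normalClosure {(r : FreeGroup X)} ⊔ ⁅π.ker, π.ker⁆) :
    Submodule.span (MonoidAlgebra ℤ G) {RelationModule.mk π hπ r} = ⊤ := by
  let S := Submodule.span (MonoidAlgebra ℤ G) {RelationModule.mk π hπ r}
  let T : Subgroup (FreeGroup X) :=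
    { carrier := {f | ∃ hf : f ∈ π.ker, RelationModule.mk π hπ ⟨f, hf⟩ ∈ S}
      one_mem' := ⟨one_mem _, by
        have := mk_one π hπ
        change RelationModule.mk π hπ 1 ∈ S
        rw [this]
        exact S.zero_mem⟩
      mul_mem' := by
        rintro a b ⟨ha, ha'⟩ ⟨hb, hb'⟩
        refine ⟨mul_mem ha hb, ?_⟩
        change RelationModule.mk π hπ (⟨a, ha⟩ * ⟨b, hb⟩) ∈ S
        rw [mk_mul]
        exact S.add_mem ha' hb'
      inv_mem' := by
        rintro a ⟨ha, ha'⟩
        refine ⟨inv_mem ha, ?_⟩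
        change RelationModule.mk π hπ (⟨a, ha⟩⁻¹) ∈ S
        rw [mk_inv]
        exact S.neg_mem ha' }
  have hTn : T.Normal := by
    constructor
    rintro a ⟨ha, ha'⟩ f
    refine ⟨Subgroup.Normal.conj_mem inferInstance _ ha f, ?_⟩
    have := of_smul_mk π hπ f ⟨a, ha⟩
    rw [← this]
    exact S.smul_mem _ ha'
  have h1 : Subgroup.normalClosure {(r : FreeGroup X)} ≤ T := by
    apply Subgroup.normalClosure_le_normal
    rw [Set.singleton_subset_iff]
    exact ⟨r.2, Submodule.subset_span rfl⟩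
  have h2 : ⁅π.ker, π.ker⁆ ≤ T := by
    rw [Subgroup.commutator_le]
    intro a ha b hb
    refine ⟨Subgroup.commutator_le_left _ _ (Subgroup.commutator_mem_commutator ha hb), ?_⟩
    have h3 : (⟨⁅a, b⁆, Subgroup.commutator_le_left _ _
        (Subgroup.commutator_mem_commutator ha hb)⟩ : π.ker)
        = ⟨a, ha⟩ * ⟨b, hb⟩ * ⟨a, ha⟩⁻¹ * ⟨b, hb⟩⁻¹ := by
      apply Subtype.ext
      rfl
    rw [h3, mk_mul, mk_mul, mk_mul, mk_inv, mk_inv]
    have h4 : RelationModule.mk π hπ ⟨a, ha⟩ + RelationModule.mk π hπ ⟨b, hb⟩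
        + -RelationModule.mk π hπ ⟨a, ha⟩ + -RelationModule.mk π hπ ⟨b, hb⟩ = 0 := by abel
    rw [h4]
    exact S.zero_mem
  have h5 : π.ker ≤ T := h.trans (sup_le h1 h2)
  rw [eq_top_iff]
  intro x _
  obtain ⟨s, rfl⟩ := exists_rep (H := π.ker) x
  obtain ⟨_, hs⟩ := h5 s.2
  exact hs

end Span

/-- The map `a ↦ t b ^ j t⁻¹`, `b ↦ b` from the free group on `a = 0`, `b = 1` to the free group
on `b = 0`, `t = 1`. -/
def iota (j : ℕ) : FreeGroup (Fin 2) →* FreeGroup (Fin 2) :=
  FreeGroup.lift ![FreeGroup.of 1 * FreeGroup.of 0 ^ j * (FreeGroup.of 1)⁻¹, FreeGroup.of 0]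

theorem iota_zero (j : ℕ) :
    iota j (FreeGroup.of 0) = FreeGroup.of 1 * FreeGroup.of 0 ^ j * (FreeGroup.of 1)⁻¹ := by
  simp [iota]

theorem iota_one (j : ℕ) : iota j (FreeGroup.of 1) = FreeGroup.of 0 := by
  simp [iota]

variable {K : Type v} [Group K] (φ : FreeGroup (Fin 2) →* K) (j : ℕ)

/-- The relation subgroup of the HNN extension of (the image of) `φ` with `t b ^ j t⁻¹ = a`. -/
def relSub : Subgroup (FreeGroup (Fin 2)) :=
  Subgroup.normalClosure (φ.ker.map (iota j) : Set (FreeGroup (Fin 2)))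

instance : (relSub φ j).Normal := Subgroup.normalClosure_normal

theorem iota_mem {u : FreeGroup (Fin 2)} (hu : u ∈ φ.ker) : iota j u ∈ relSub φ j :=
  Subgroup.subset_normalClosure ⟨u, hu, rfl⟩

theorem relSub_le (n m : ℕ) (hm : j * n = m) (w : FreeGroup (Fin 2))
    (h1 : φ.ker ≤ Subgroup.normalClosure {w, FreeGroup.of 0 ^ n} ⊔ ⁅φ.ker, φ.ker⁆)
    (h2 : FreeGroup.of 1 ^ m ∈ Subgroup.normalClosure {w} ⊔ ⁅φ.ker, φ.ker⁆) :
    relSub φ j ≤ Subgroup.normalClosure {iota j w} ⊔ ⁅relSub φ j, relSub φ j⁆ := by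
  set T := Subgroup.normalClosure {iota j w} ⊔ ⁅relSub φ j, relSub φ j⁆ with hT
  have hTn : T.Normal := inferInstance
  have hTn' : (T.comap (iota j)).Normal := inferInstance
  have h3 : ⁅φ.ker, φ.ker⁆ ≤ T.comap (iota j) := by
    rw [← Subgroup.map_le_iff_le_comap, Subgroup.map_commutator]
    have h4 : φ.ker.map (iota j) ≤ relSub φ j := Subgroup.subset_normalClosure
    exact (Subgroup.commutator_mono h4 h4).trans le_sup_right
  have h5 : w ∈ T.comap (iota j) :=
    Subgroup.mem_sup_left (Subgroup.subset_normalClosure rfl)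
  have h6 : Subgroup.normalClosure {w} ≤ T.comap (iota j) := by
    apply Subgroup.normalClosure_le_normal
    rw [Set.singleton_subset_iff]
    exact h5
  have h7 : iota j (FreeGroup.of 1 ^ m) ∈ T := (sup_le h6 h3) h2
  have h8 : iota j (FreeGroup.of 0 ^ n) ∈ T := by
    rw [map_pow, iota_zero, conj_pow, ← pow_mul, hm]
    rw [map_pow, iota_one] at h7
    exact hTn.conj_mem _ h7 (FreeGroup.of 1)
  have h11 : Subgroup.normalClosure {w, FreeGroup.of 0 ^ n} ≤ T.comap (iota j) := by
    apply Subgroup.normalClosure_le_normal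
    rintro x (rfl | rfl)
    · exact h5
    · exact h8
  have h12 : φ.ker ≤ T.comap (iota j) := h1.trans (sup_le h11 h3)
  rw [relSub]
  apply Subgroup.normalClosure_le_normal
  rintro _ ⟨u, hu, rfl⟩
  exact h12 hu

/-- The group `⟨b, t | u(t b ^ j t⁻¹, b) = 1 for u(a, b) in the kernel of φ⟩`. -/
abbrev HGroup : Type := FreeGroup (Fin 2) ⧸ relSub φ j

/-- Homomorphisms factoring through `HGroup φ`. -/
theorem relSub_le_ker {Q : Type*} [Group Q] (θ : FreeGroup (Fin 2) →* Q) (τ : K →* Q)
    (h : θ.comp (iota j) = τ.comp φ) : relSub φ j ≤ θ.ker := by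
  rw [relSub]
  apply Subgroup.normalClosure_le_normal
  rintro _ ⟨u, hu, rfl⟩
  have h1 : φ u = 1 := hu
  change θ (iota j u) = 1
  have := DFunLike.congr_fun h u
  simp only [MonoidHom.comp_apply] at this
  rw [this, h1, map_one]

theorem card_hom (p : ℕ) [Fact p.Prime] (z : FreeGroup (Fin 2)) (hz : z ∈ φ.ker)
    (hz' : ∀ c : Multiplicative (ZMod p), FreeGroup.lift ![c ^ j, c] z = 1 → c = 1) :
    Nat.card (HGroup φ j →* Multiplicative (ZMod p)) = p := by
  have h0 : ∀ f : HGroup φ j →* Multiplicative (ZMod p),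
      f (QuotientGroup.mk' (relSub φ j) (FreeGroup.of 0)) = 1 := by
    intro f
    apply hz'
    have h1 : (f.comp (QuotientGroup.mk' (relSub φ j))).comp (iota j) =
        FreeGroup.lift ![f (QuotientGroup.mk' (relSub φ j) (FreeGroup.of 0)) ^ j,
          f (QuotientGroup.mk' (relSub φ j) (FreeGroup.of 0))] := by
      apply FreeGroup.ext_hom
      intro i
      fin_cases i
      · simp [iota]
      · simp [iota]
    rw [← h1]
    have h2 : QuotientGroup.mk' (relSub φ j) (iota j z) = 1 := by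
      rw [QuotientGroup.mk'_apply, QuotientGroup.eq_one_iff]
      exact iota_mem φ j hz
    simp only [MonoidHom.comp_apply]
    rw [h2, map_one]
  have hker : ∀ c : Multiplicative (ZMod p),
      relSub φ j ≤ (FreeGroup.lift ![1, c] : FreeGroup (Fin 2) →* Multiplicative (ZMod p)).ker := by
    intro c
    apply relSub_le_ker φ j _ 1
    apply FreeGroup.ext_hom
    intro i
    fin_cases i
    · simp [iota]
    · simp [iota]
  have e : (HGroup φ j →* Multiplicative (ZMod p)) ≃ Multiplicative (ZMod p) :=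
    { toFun := fun f => f (QuotientGroup.mk' (relSub φ j) (FreeGroup.of 1))
      invFun := fun c => QuotientGroup.lift _ _ (hker c)
      left_inv := fun f => by
        apply QuotientGroup.monoidHom_ext
        apply FreeGroup.ext_hom
        intro i
        fin_cases i
        · have := h0 f
          simpa using this.symm
        · simp
      right_inv := fun c => by simp }
  rw [Nat.card_congr e]
  simp

/-- The main reduction. -/
theorem counterexample {Q : Type*} [Group Q] (p : ℕ) (hp : p.Prime) (n m : ℕ) (hm : j * n = m)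
    (w : FreeGroup (Fin 2)) (hw : w ∈ φ.ker)
    (h1 : φ.ker ≤ Subgroup.normalClosure {w, FreeGroup.of 0 ^ n} ⊔ ⁅φ.ker, φ.ker⁆)
    (h2 : FreeGroup.of 1 ^ m ∈ Subgroup.normalClosure {w} ⊔ ⁅φ.ker, φ.ker⁆)
    (z : FreeGroup (Fin 2)) (hz : z ∈ φ.ker)
    (hz' : ∀ c : Multiplicative (ZMod p), FreeGroup.lift ![c ^ j, c] z = 1 → c = 1)
    (y : FreeGroup (Fin 2)) (hy : y ^ p ∈ φ.ker) (hy1 : φ y ≠ 1)
    (θ : FreeGroup (Fin 2) →* Q) (τ : K →* Q) (hτ : Function.Injective τ)
    (hθ : θ.comp (iota j) = τ.comp φ)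
    (hθ1 : θ (FreeGroup.of 0) * θ (FreeGroup.of 1) ≠ θ (FreeGroup.of 1) * θ (FreeGroup.of 0)) :
    (∃ m : RelationModule (QuotientGroup.mk' (relSub φ j)) (QuotientGroup.mk'_surjective _),
      Submodule.span (MonoidAlgebra ℤ (HGroup φ j)) {m} = ⊤) ∧
    ∀ (X : Type u) (r : FreeGroup X), IsEmpty (HGroup φ j ≃* PresentedGroup {r}) := by
  have hker : (QuotientGroup.mk' (relSub φ j)).ker = relSub φ j := QuotientGroup.ker_mk' _
  constructor
  · have hmem : iota j w ∈ (QuotientGroup.mk' (relSub φ j)).ker := by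
      rw [hker]
      exact iota_mem φ j hw
    refine ⟨RelationModule.mk _ _ ⟨iota j w, hmem⟩, ?_⟩
    apply span_singleton_eq_top
    have h3 := relSub_le φ j n m hm w h1 h2
    rw [← hker] at h3
    exact h3
  · intro X r
    have : Fact p.Prime := ⟨hp⟩
    have hle := relSub_le_ker φ j θ τ hθ
    let θ' : HGroup φ j →* Q := QuotientGroup.lift _ θ hle
    have hθ' : ∀ u, θ' (QuotientGroup.mk' (relSub φ j) u) = θ u := fun u => rfl
    apply OneRel.not_oneRelator hp (QuotientGroup.mk' (relSub φ j) (iota j y))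
    · rw [← map_pow, ← map_pow, QuotientGroup.mk'_apply, QuotientGroup.eq_one_iff]
      exact iota_mem φ j hy
    · intro h
      apply hy1
      apply hτ
      have h' : θ (iota j y) = 1 := by
        rw [← hθ', h, map_one]
      have h'' := DFunLike.congr_fun hθ y
      simp only [MonoidHom.comp_apply] at h''
      rw [← h'', h', map_one]
    · exact card_hom φ j p z hz hz'
    · refine ⟨QuotientGroup.mk' (relSub φ j) (FreeGroup.of 0),
        QuotientGroup.mk' (relSub φ j) (FreeGroup.of 1), ?_⟩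
      intro h
      apply hθ1
      have := congrArg θ' h
      rwa [map_mul, map_mul, hθ', hθ'] at this

end RelMod
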