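import Mathlib

/-!
# One-relator groups: words, rewriting

Basic definitions for the Magnus-Moldavanskii induction.
-/

universe u

namespace OneRel

open FreeGroup (of mk mul_mk one_eq_mk)

variable {X : Type u}

theorem mk_nil : (mk [] : FreeGroup X) = 1 := rfl

/-- inclusion of the free group on `X \ {z}`. -/
abbrev incl (z : X) : FreeGroup {x : X // x ≠ z} →* FreeGroup X := FreeGroup.map Subtype.val

/-- the relator `r` involves the generator `z` in an essential way. -/
def Proper (r : FreeGroup X) (z : X) : Prop := ∀ c : FreeGroup X, c * r * c⁻¹ ∉ (incl z).range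

/-- Freiheitssatz for `r` and `z`. -/
def FP (r : FreeGroup X) (z : X) : Prop :=
  ∀ g : FreeGroup {x : X // x ≠ z}, incl z g ∈ Subgroup.normalClosure {r} → g = 1

/-- no element of order `p`. -/
def TP (p : ℕ) (r : FreeGroup X) : Prop :=
  ∀ g : FreeGroup X, g ^ p ∈ Subgroup.normalClosure {r} → g ∈ Subgroup.normalClosure {r}

theorem normalClosure_conj (r c : FreeGroup X) :
    Subgroup.normalClosure {c * r * c⁻¹} = Subgroup.normalClosure {r} := by
  apply le_antisymm
  · apply Subgroup.normalClosure_le_normal
    intro x hx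
    rw [Set.mem_singleton_iff] at hx
    subst hx
    exact (Subgroup.normalClosure_normal (s := {r})).conj_mem _
      (Subgroup.subset_normalClosure rfl) c
  · apply Subgroup.normalClosure_le_normal
    intro x hx
    rw [Set.mem_singleton_iff] at hx
    subst hx
    have h := (Subgroup.normalClosure_normal (s := {c * x * c⁻¹})).conj_mem _
      (Subgroup.subset_normalClosure rfl) c⁻¹
    have h2 : c⁻¹ * (c * x * c⁻¹) * c⁻¹⁻¹ = x := by group
    rwa [h2] at h

theorem Proper.conj {r : FreeGroup X} {z : X} (h : Proper r z) (d : FreeGroup X) :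
    Proper (d * r * d⁻¹) z := by
  intro c hc
  apply h (c * d)
  have : c * d * r * (c * d)⁻¹ = c * (d * r * d⁻¹) * c⁻¹ := by group
  rwa [this]

/-- `L` is a word of minimal length in its conjugacy class. -/
def Lmin (L : List (X × Bool)) : Prop :=
  ∀ (L' : List (X × Bool)) (c : FreeGroup X), mk L' = c * mk L * c⁻¹ → L.length ≤ L'.length

theorem exists_lmin (r : FreeGroup X) (L₀ : List (X × Bool)) (c₀ : FreeGroup X)
    (h₀ : mk L₀ = c₀ * r * c₀⁻¹) :
    ∃ (L : List (X × Bool)) (c : FreeGroup X), mk L = c * r * c⁻¹ ∧ Lmin L ∧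
      L.length ≤ L₀.length := by
  classical
  let P : ℕ → Prop := fun n => ∃ (L : List (X × Bool)) (c : FreeGroup X),
    mk L = c * r * c⁻¹ ∧ L.length = n
  have hP : ∃ n, P n := ⟨L₀.length, L₀, c₀, h₀, rfl⟩
  obtain ⟨L, c, h1, h2⟩ := Nat.find_spec hP
  refine ⟨L, c, h1, fun L' c' h => ?_, ?_⟩
  · rw [h2]
    apply Nat.find_min' hP
    refine ⟨L', c' * c, ?_, rfl⟩
    rw [h, h1]
    group
  · rw [h2]
    exact Nat.find_min' hP ⟨L₀, c₀, h₀, rfl⟩

/-- delete the letter `z`. -/
noncomputable def kill (z : X) : FreeGroup X →* FreeGroup {x : X // x ≠ z} :=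
  haveI := Classical.decEq X
  FreeGroup.lift (fun x => if h : x = z then 1 else of ⟨x, h⟩)

theorem kill_of_self (z : X) : kill z (of z) = 1 := by
  simp [kill]

theorem kill_of_ne {z x : X} (h : x ≠ z) : kill z (of x) = of ⟨x, h⟩ := by
  simp [kill, h]

theorem kill_incl (z : X) (g : FreeGroup {x : X // x ≠ z}) : kill z (incl z g) = g := by
  have : (kill z).comp (incl z) = MonoidHom.id _ := by
    ext x
    simp [kill_of_ne x.2]
  exact DFunLike.congr_fun this g

theorem mk_cons (a : X × Bool) (L : List (X × Bool)) :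
    (mk (a :: L) : FreeGroup X) = (cond a.2 (of a.1) (of a.1)⁻¹) * mk L := by
  obtain ⟨x, b⟩ := a
  cases b
  · have : (of x)⁻¹ = (mk [(x, false)] : FreeGroup X) := by
      simp [of, FreeGroup.inv_mk, FreeGroup.invRev]
    simp only [cond_false]
    rw [this, mul_mk]
    rfl
  · simp only [cond_true]
    rw [of, mul_mk]
    rfl

theorem kill_mk [DecidableEq X] (z : X) (L : List (X × Bool)) :
    incl z (kill z (mk L)) = mk (L.filter (fun a => a.1 ≠ z)) := by
  induction L with
  | nil => rw [List.filter_nil, mk_nil, map_one, map_one]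
  | cons a L ih =>
    obtain ⟨x, b⟩ := a
    rw [mk_cons, map_mul, map_mul, ih]
    by_cases hx : x = z
    · subst hx
      have : (List.filter (fun a : X × Bool => a.1 ≠ x) ((x, b) :: L)) =
          List.filter (fun a : X × Bool => a.1 ≠ x) L := by
        simp
      rw [this]
      cases b <;> simp [kill_of_self]
    · have : (List.filter (fun a : X × Bool => a.1 ≠ z) ((x, b) :: L)) =
          (x, b) :: List.filter (fun a : X × Bool => a.1 ≠ z) L := by
        simp [hx]
      rw [this, mk_cons]
      cases b <;> simp [kill_of_ne hx]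

/-- A letter which occurs in a word of minimal length is essential. -/
theorem Lmin.proper {L : List (X × Bool)} (hL : Lmin L) {z : X} {b : Bool} (hz : (z, b) ∈ L) :
    Proper (mk L) z := by
  classical
  rintro c ⟨g, hg⟩
  have h1 : incl z (kill z (c * mk L * c⁻¹)) = c * mk L * c⁻¹ := by
    rw [← hg, kill_incl]
  have h2 : mk (L.filter (fun a => a.1 ≠ z)) =
      (incl z (kill z c))⁻¹ * c * mk L * ((incl z (kill z c))⁻¹ * c)⁻¹ := by
    rw [← kill_mk]
    rw [map_mul, map_mul, map_mul, map_mul, map_inv, map_inv] at h1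
    calc incl z (kill z (mk L)) = (incl z (kill z c))⁻¹ *
        (incl z (kill z c) * incl z (kill z (mk L)) * (incl z (kill z c))⁻¹) *
        (incl z (kill z c)) := by group
      _ = _ := by rw [h1]; group
  have h3 := hL _ _ h2
  have h4 : (L.filter (fun a => a.1 ≠ z)).length < L.length := by
    apply List.length_filter_lt_length_iff_exists.2
    exact ⟨(z, b), hz, by simp⟩
  omega

/-- If the letter `z` does not occur in `L` then `mk L` lies in the subgroup generated by the
other letters. -/
theorem mem_range_of_not_occurs {L : List (X × Bool)} {z : X} (h : ∀ a ∈ L, a.1 ≠ z) :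
    (mk L : FreeGroup X) ∈ (incl z).range := by
  classical
  refine ⟨kill z (mk L), ?_⟩
  rw [kill_mk]
  congr 1
  rw [List.filter_eq_self]
  intro a ha
  simpa using h a ha

/-- exponent sum of `x`. -/
noncomputable def ex (x : X) : FreeGroup X →* Multiplicative ℤ :=
  haveI := Classical.decEq X
  FreeGroup.lift (fun y => if y = x then Multiplicative.ofAdd 1 else 1)

theorem ex_of_self (x : X) : ex x (of x) = Multiplicative.ofAdd 1 := by simp [ex]

theorem ex_of_ne {x y : X} (h : y ≠ x) : ex x (of y) = 1 := by simp [ex, h]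

theorem ex_incl (z : X) (g : FreeGroup {x : X // x ≠ z}) : ex z (incl z g) = 1 := by
  have : (ex z).comp (incl z) = 1 := by
    ext x
    simp [ex_of_ne x.2]
  exact DFunLike.congr_fun this g

theorem hom_conj {A : Type*} [CommGroup A] (f : FreeGroup X →* A) (c r : FreeGroup X) :
    f (c * r * c⁻¹) = f r := by
  rw [map_mul, map_mul, map_inv, mul_comm (f c), mul_assoc, mul_inv_cancel, mul_one]

theorem hom_eq_one_of_mem {A : Type*} [Group A] (f : FreeGroup X →* A) {r g : FreeGroup X}
    (h : f r = 1) (hg : g ∈ Subgroup.normalClosure {r}) : f g = 1 := by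
  have : Subgroup.normalClosure {r} ≤ f.ker := by
    apply Subgroup.normalClosure_le_normal
    intro x hx
    rw [Set.mem_singleton_iff] at hx
    subst hx
    exact h
  exact this hg

theorem proper_of_ex {r : FreeGroup X} {z : X} (h : ex z r ≠ 1) : Proper r z := by
  rintro c ⟨g, hg⟩
  apply h
  rw [← hom_conj (ex z) c r, ← hg, ex_incl]

/-! ## The infinite cyclic cover -/

/-- letters `x_i`, `x ≠ t`, `i ∈ ℤ`. -/
abbrev XP (t : X) : Type u := {x : X // x ≠ t} × ℤ

/-- `x_i ↦ t^i x t^{-i}`. -/
noncomputable def rho (t : X) : FreeGroup (XP t) →* FreeGroup X :=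
  FreeGroup.lift (fun c => of t ^ c.2 * of (c.1 : X) * (of t ^ c.2)⁻¹)

theorem rho_of {t : X} (c : XP t) :
    rho t (of c) = of t ^ c.2 * of (c.1 : X) * (of t ^ c.2)⁻¹ := by simp [rho]

/-- shift of the indices -/
def shift (t : X) (k : ℤ) : XP t → XP t := fun c => (c.1, c.2 + k)

theorem rho_shift {t : X} (k : ℤ) (g : FreeGroup (XP t)) :
    rho t (FreeGroup.map (shift t k) g) = of t ^ k * rho t g * (of t ^ k)⁻¹ := by
  have : (rho t).comp (FreeGroup.map (shift t k)) =
      (MulAut.conj (of t ^ k)).toMonoidHom.comp (rho t) := by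
    ext c
    simp only [MonoidHom.comp_apply, FreeGroup.map.of, rho_of, shift, MulEquiv.coe_toMonoidHom,
      MulAut.conj_apply]
    rw [add_comm c.2 k, zpow_add]
    group
  exact DFunLike.congr_fun this g

theorem ex_rho {t : X} (g : FreeGroup (XP t)) : ex t (rho t g) = 1 := by
  have : (ex t).comp (rho t) = 1 := by
    ext c
    simp only [MonoidHom.comp_apply, rho_of, MonoidHom.one_apply]
    rw [hom_conj, ex_of_ne c.1.2]
  exact DFunLike.congr_fun this g

/-- Rewriting. -/
theorem rewriting [DecidableEq X] (t : X) (ψ : FreeGroup X →* FreeGroup X) (α : ℤ) (k : X → ℤ)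
    (h1 : ψ (of t) = of t ^ α) (h2 : ∀ x, x ≠ t → ψ (of x) = of x * of t ^ k x)
    (L : List (X × Bool)) :
    ∃ (L' : List (XP t × Bool)) (h : ℤ), ψ (mk L) = rho t (mk L') * of t ^ h ∧
      L'.length ≤ (L.filter (fun a => a.1 ≠ t)).length ∧
      (∀ c ∈ L', ∃ a ∈ L, (c.1.1 : X) = a.1) := by
  induction L with
  | nil =>
    refine ⟨[], 0, ?_, le_rfl, by simp⟩
    rw [mk_nil, mk_nil]
    simp
  | cons a L ih =>
    obtain ⟨L', h, e1, e2, e3⟩ := ih
    obtain ⟨x, b⟩ := a
    rw [mk_cons, map_mul, e1]
    by_cases hx : x = t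
    · subst hx
      -- multiplication by a power of `t`
      have key : ∀ m : ℤ, ∃ (L'' : List (XP x × Bool)) (h' : ℤ),
          of x ^ m * (rho x (mk L') * of x ^ h) = rho x (mk L'') * of x ^ h' ∧
          L''.length = L'.length ∧ (∀ c ∈ L'', ∃ c' ∈ L', (c.1.1 : X) = c'.1.1) := by
        intro m
        refine ⟨L'.map (fun c => (shift x m c.1, c.2)), h + m, ?_, by simp, ?_⟩
        · rw [← FreeGroup.map.mk, rho_shift]
          rw [add_comm h m, zpow_add]
          group
        · intro c hc
          rw [List.mem_map] at hc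
          obtain ⟨c', hc', rfl⟩ := hc
          exact ⟨c', hc', rfl⟩
      have h3 : ∃ m : ℤ, ψ (cond b (of x) (of x)⁻¹) = of x ^ m := by
        cases b
        · exact ⟨-α, by simp [h1]⟩
        · exact ⟨α, by simp [h1]⟩
      obtain ⟨m, hm⟩ := h3
      obtain ⟨L'', h', f1, f2, f3⟩ := key m
      refine ⟨L'', h', ?_, ?_, ?_⟩
      · rw [← f1, ← hm]
      · rw [f2]
        refine e2.trans ?_
        simp
      · intro c hc
        obtain ⟨c', hc', h4⟩ := f3 c hc
        obtain ⟨a, ha, h5⟩ := e3 c' hc'
        exact ⟨a, List.mem_cons_of_mem _ ha, by rw [h4, h5]⟩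
    · cases b
      · refine ⟨(L'.map (fun c => (shift t 0 c.1, c.2))).cons ((⟨x, hx⟩, 0), false) |>.map
          (fun c => (shift t (-k x) c.1, c.2)), h - k x, ?_, ?_, ?_⟩
        · rw [← FreeGroup.map.mk, rho_shift, mk_cons, map_mul, ← FreeGroup.map.mk, rho_shift]
          simp only [cond_false, map_inv, rho_of, zpow_zero, one_mul, inv_one, mul_one, h2 x hx]
          rw [sub_eq_add_neg, add_comm h, zpow_add]
          group
        · have : (List.filter (fun a : X × Bool => a.1 ≠ t) ((x, false) :: L)).length =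
            (List.filter (fun a : X × Bool => a.1 ≠ t) L).length + 1 := by
            simp [hx]
          rw [this]
          simpa using e2
        · intro c hc
          rw [List.mem_map] at hc
          obtain ⟨c', hc', rfl⟩ := hc
          rw [List.mem_cons] at hc'
          rcases hc' with rfl | hc'
          · exact ⟨(x, false), List.mem_cons_self, rfl⟩
          · rw [List.mem_map] at hc'
            obtain ⟨c'', hc'', rfl⟩ := hc'
            obtain ⟨a, ha, h5⟩ := e3 c'' hc''
            exact ⟨a, List.mem_cons_of_mem _ ha, h5⟩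
      · refine ⟨(L'.map (fun c => (shift t (k x) c.1, c.2))).cons ((⟨x, hx⟩, 0), true),
          h + k x, ?_, ?_, ?_⟩
        · rw [mk_cons, map_mul, ← FreeGroup.map.mk, rho_shift]
          simp only [cond_true, rho_of, zpow_zero, one_mul, inv_one, mul_one, h2 x hx]
          rw [add_comm h, zpow_add]
          group
        · have : (List.filter (fun a : X × Bool => a.1 ≠ t) ((x, true) :: L)).length =
            (List.filter (fun a : X × Bool => a.1 ≠ t) L).length + 1 := by
            simp [hx]
          rw [this]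
          simpa using e2
        · intro c hc
          rw [List.mem_cons] at hc
          rcases hc with rfl | hc
          · exact ⟨(x, true), List.mem_cons_self, rfl⟩
          · rw [List.mem_map] at hc
            obtain ⟨c'', hc'', rfl⟩ := hc
            obtain ⟨a, ha, h5⟩ := e3 c'' hc''
            exact ⟨a, List.mem_cons_of_mem _ ha, h5⟩

end OneRel
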