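import Pool.Agent.Lib.MP_8396f3_al.FlowV

/-!
# Checkable certificates for flows on a finite regular permutation representation
-/

namespace RelMod

universe u v

variable {X : Type u} {V : Type v} (P : X → Equiv.Perm V)

/-- Regularity from commuting left translations. -/
theorem isRegular_of_table {v0 : V} (T : V → V → V) (hT0 : ∀ j, T j v0 = j)
    (hT : ∀ j i x, T j (P x i) = P x (T j i)) (wd : V → List (X × Bool))
    (hwd : ∀ v, lend P v0 (wd v) = v) : IsRegular P v0 := by
  have hT' : ∀ j i x, T j ((P x).symm i) = (P x).symm (T j i) := by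
    intro j i x
    rw [Equiv.eq_symm_apply, ← hT, Equiv.apply_symm_apply]
  have key : ∀ (L : List (X × Bool)) (j i : V), T j (lend P i L) = lend P (T j i) L := by
    intro L
    induction L with
    | nil => intro j i; rfl
    | cons l L ih =>
      intro j i
      obtain ⟨x, b⟩ := l
      cases b
      · change T j (lend P ((P x).symm i) L) = lend P ((P x).symm (T j i)) L
        rw [ih, hT']
      · change T j (lend P (P x i) L) = lend P (P x (T j i)) L
        rw [ih, hT]
  constructor
  · intro v
    exact ⟨FreeGroup.mk (wd v), by rw [endp_mk, hwd]⟩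
  · intro u hu
    rw [mem_ker_iff]
    intro v
    classical
    rw [← FreeGroup.mk_toWord (x := u), endp_mk] at hu ⊢
    have := key u.toWord v v0
    rw [hu, hT0] at this
    exact this.symm

theorem mk_rotate_mem {N : Subgroup (FreeGroup X)} [hN : N.Normal] (L : List (X × Bool)) (i : ℕ)
    (h : FreeGroup.mk L ∈ N) : FreeGroup.mk (L.rotate i) ∈ N := by
  induction i generalizing L with
  | zero => rwa [List.rotate_zero]
  | succ i ih =>
    cases L with
    | nil => simpa using h
    | cons l L =>
      rw [List.rotate_cons_succ]
      apply ih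
      have h1 : (FreeGroup.mk (L ++ [l]) : FreeGroup X)
          = (FreeGroup.mk [l])⁻¹ * FreeGroup.mk (l :: L) * (FreeGroup.mk [l])⁻¹⁻¹ := by
        have h2 : (FreeGroup.mk (l :: L) : FreeGroup X) = FreeGroup.mk [l] * FreeGroup.mk L := by
          rw [FreeGroup.mul_mk]
          rfl
        rw [h2, ← FreeGroup.mul_mk]
        group
      rw [h1]
      exact hN.conj_mem _ h _

section

variable [DecidableEq V] [DecidableEq X]

/-- Extend a list of good edges by collapsing closed paths all of whose edges except the first
one are already good. -/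
def run : List (V × X) → List (V × List (X × Bool)) → List (V × X)
  | known, [] => known
  | known, (v, L) :: S =>
    if (ledges P v L).tail.all (fun e => decide (e ∈ known)) = true then
      run ((ledges P v L).head?.toList ++ known) S
    else run known S

theorem run_sound (p : V → (V × X → ℤ)) (Z : AddSubgroup (V × X → ℤ))
    (S : List (V × List (X × Bool)))
    (hS : ∀ q ∈ S, flowV P q.1 (FreeGroup.mk q.2) ∈ Z ∧ lend P q.1 q.2 = q.1) :
    ∀ known : List (V × X), (∀ e ∈ known, defect P p e ∈ Z) →
      ∀ e ∈ run P known S, defect P p e ∈ Z := by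
  induction S with
  | nil => intro known hk e he; exact hk e he
  | cons q S ih =>
    obtain ⟨v, L⟩ := q
    intro known hk e he
    have hS' : ∀ q ∈ S, flowV P q.1 (FreeGroup.mk q.2) ∈ Z ∧ lend P q.1 q.2 = q.1 :=
      fun q hq => hS q (List.mem_cons_of_mem _ hq)
    rw [run] at he
    split_ifs at he with hif
    · apply ih hS' _ _ e he
      intro e' he'
      rw [List.mem_append] at he'
      rcases he' with he' | he'
      · cases L with
        | nil => simp [ledges] at he'
        | cons l L =>
          obtain ⟨x, b⟩ := l
          obtain ⟨h1, h2⟩ := hS (v, (x, b) :: L) List.mem_cons_self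
          apply first_edge_mem P p Z v x b L h1 h2
          · intro e'' he''
            rw [List.all_eq_true] at hif
            have := hif e'' he''
            exact hk _ (of_decide_eq_true this)
          · simpa using he'
      · exact hk e' he'
    · exact ih hS' known hk e he

/-- Tree edges: the word of the new vertex extends the word of the old one. -/
def treeCheck (v0 : V) (wd : V → List (X × Bool)) (q : V × V × X × Bool) : Bool :=
  decide (wd q.1 = wd q.2.1 ++ [q.2.2]) && decide (lend P v0 (wd q.2.1) = q.2.1)
    && decide (lend P q.2.1 [q.2.2] = q.1)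

theorem tree_defect (v0 : V) (wd : V → List (X × Bool)) (q : V × V × X × Bool)
    (hq : treeCheck P v0 wd q = true) (Z : AddSubgroup (V × X → ℤ)) :
    ∀ e ∈ ledges P q.2.1 [q.2.2],
      defect P (fun v => flowV P v0 (FreeGroup.mk (wd v))) e ∈ Z := by
  obtain ⟨v, u, x, b⟩ := q
  simp only [treeCheck, Bool.and_eq_true, decide_eq_true_eq] at hq
  obtain ⟨⟨h1, h2⟩, h3⟩ := hq
  intro e he
  have h4 : flowV P v0 (FreeGroup.mk (wd v)) =
      flowV P v0 (FreeGroup.mk (wd u)) + flowV P u (FreeGroup.mk [(x, b)]) := by
    rw [h1, ← FreeGroup.mul_mk, flowV_mul, endp_mk, h2]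
  cases b
  · have he' : e = ((P x).symm u, x) := by simpa [ledges] using he
    subst he'
    have h5 : v = (P x).symm u := h3.symm
    rw [mk_cons_false] at h4
    have h6 : (FreeGroup.mk [] : FreeGroup X) = 1 := rfl
    rw [h6, mul_one, flowV_inv, endp_inv_of, flowV_of] at h4
    have h7 : defect P (fun v => flowV P v0 (FreeGroup.mk (wd v))) ((P x).symm u, x) = 0 := by
      simp only [defect, Equiv.apply_symm_apply]
      rw [← h5, h4, h5]
      simp only [Equiv.Perm.inv_def]
      abel
    rw [h7]
    exact zero_mem _
  · have he' : e = (u, x) := by simpa [ledges] using he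
    subst he'
    have h5 : v = P x u := h3.symm
    rw [mk_cons_true] at h4
    have h6 : (FreeGroup.mk [] : FreeGroup X) = 1 := rfl
    rw [h6, mul_one, flowV_of] at h4
    have h7 : defect P (fun v => flowV P v0 (FreeGroup.mk (wd v))) (u, x) = 0 := by
      simp only [defect]
      rw [← h5, h4]
      abel
    rw [h7]
    exact zero_mem _

/-- The list of tree edges. -/
def treeEdges (tree : List (V × V × X × Bool)) : List (V × X) :=
  tree.flatMap (fun q => ledges P q.2.1 [q.2.2])

/-- The kernel is contained in a normal subgroup containing the collapsing relators. -/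
theorem ker_le_of_collapse [Fintype V] [Fintype X] {v0 : V} (hr : IsRegular P v0)
    {S0 : Set (FreeGroup X)} (hS0 : S0 ⊆ (sig P).ker)
    (wd : V → List (X × Bool)) (tree : List (V × V × X × Bool))
    (htree : tree.all (treeCheck P v0 wd) = true)
    (S : List (V × List (X × Bool)))
    (hS : ∀ q ∈ S, FreeGroup.mk q.2 ∈
      Subgroup.normalClosure S0 ⊔ ⁅(sig P).ker, (sig P).ker⁆)
    (hall : ∀ e, e ∈ run P (treeEdges P tree) S) :
    (sig P).ker ≤ Subgroup.normalClosure S0 ⊔ ⁅(sig P).ker, (sig P).ker⁆ := by
  intro u hu
  apply mem_of_flowV_mem_span P hr hS0 u hu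
  apply flow_mem_of_defects P (fun v => flowV P v0 (FreeGroup.mk (wd v))) _ _ u hu
  intro e
  apply run_sound P _ (spanV P S0) S _ (treeEdges P tree) _ e (hall e)
  · intro q hq
    have h1 := flowV_mem_of_mem P hS0 (hS q hq)
    refine ⟨h1.2 q.1, ?_⟩
    rw [← endp_mk]
    exact endp_of_mem_ker P h1.1 q.1
  · intro e he
    rw [treeEdges, List.mem_flatMap] at he
    obtain ⟨q, hq, he⟩ := he
    rw [List.all_eq_true] at htree
    exact tree_defect P v0 wd q (htree q hq) _ e he

end

end RelMod
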