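import Pool.Agent.Lib.MP_8396f3_al.Basic

/-!
# One-relator groups as HNN extensions
-/

universe u

namespace OneRel

open FreeGroup (of mk mul_mk one_eq_mk)

variable {X : Type u}

/-- The letters of the base group: `x_i` for `x ≠ a`, `i ∈ ℤ`, and `a_i` for `m ≤ i ≤ M`. -/
abbrev X1 {t : X} (a : {x : X // x ≠ t}) (m M : ℤ) : Type u :=
  {c : XP t // c.1 = a → m ≤ c.2 ∧ c.2 ≤ M}

/-- inclusion of the letters -/
abbrev jj {t : X} (a : {x : X // x ≠ t}) (m M : ℤ) : FreeGroup (X1 a m M) →* FreeGroup (XP t) :=
  FreeGroup.map Subtype.val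

/-- the shift, as an equivalence between letters of the two associated subgroups -/
def shiftEquiv {t : X} (a : {x : X // x ≠ t}) (m M : ℤ) (aM am : X1 a m M)
    (haM : aM.1 = (a, M)) (ham : am.1 = (a, m)) :
    {x : X1 a m M // x ≠ aM} ≃ {x : X1 a m M // x ≠ am} where
  toFun c := ⟨⟨(c.1.1.1, c.1.1.2 + 1), fun h => by
      have h1 := c.1.2 h
      have h2 : c.1.1.2 ≠ M := fun h3 => c.2 (Subtype.ext (by rw [haM]; exact Prod.ext h h3))
      constructor
      · show m ≤ c.1.1.2 + 1
        omega
      · show c.1.1.2 + 1 ≤ M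
        omega⟩, fun h => by
      have h1 : (c.1.1.1, c.1.1.2 + 1) = (a, m) := by
        rw [← ham, ← h]
      have h2 := congrArg Prod.fst h1
      have h3 := congrArg Prod.snd h1
      have h4 := c.1.2 h2
      simp only at h3
      omega⟩
  invFun c := ⟨⟨(c.1.1.1, c.1.1.2 - 1), fun h => by
      have h1 := c.1.2 h
      have h2 : c.1.1.2 ≠ m := fun h3 => c.2 (Subtype.ext (by rw [ham]; exact Prod.ext h h3))
      constructor
      · show m ≤ c.1.1.2 - 1
        omega
      · show c.1.1.2 - 1 ≤ M
        omega⟩, fun h => by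
      have h1 : (c.1.1.1, c.1.1.2 - 1) = (a, M) := by
        rw [← haM, ← h]
      have h2 := congrArg Prod.fst h1
      have h3 := congrArg Prod.snd h1
      have h4 := c.1.2 h2
      simp only at h3
      omega⟩
  left_inv c := by
    apply Subtype.ext
    apply Subtype.ext
    apply Prod.ext
    · rfl
    · show c.1.1.2 + 1 - 1 = c.1.1.2
      omega
  right_inv c := by
    apply Subtype.ext
    apply Subtype.ext
    apply Prod.ext
    · rfl
    · show c.1.1.2 - 1 + 1 = c.1.1.2
      omega

theorem core {t : X} (a : {x : X // x ≠ t}) (m M : ℤ) (hm : m ≤ 0) (hM : 0 ≤ M)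
    (aM am : X1 a m M) (haM : aM.1 = (a, M)) (ham : am.1 = (a, m))
    (r1 : FreeGroup (X1 a m M)) (hA : FP r1 aM) (hB : FP r1 am)
    (r c : FreeGroup X) (hr : rho t (jj a m M r1) = c * r * c⁻¹) :
    ∃ (A B : Subgroup (PresentedGroup {r1})) (φ : A ≃* B)
      (Θ : FreeGroup X →* HNNExtension (PresentedGroup {r1}) A B φ),
      (∀ g, Θ g = 1 ↔ g ∈ Subgroup.normalClosure {r}) ∧
      (∀ g : FreeGroup (X1 a m M), Θ (rho t (jj a m M g)) =
        HNNExtension.of (PresentedGroup.mk {r1} g)) := by
  classical
  set q : FreeGroup (X1 a m M) →* PresentedGroup {r1} := PresentedGroup.mk {r1} with hq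
  have hqA : Function.Injective (q.comp (incl aM)) := by
    rw [injective_iff_map_eq_one]
    intro g hg
    exact hA g (PresentedGroup.mk_eq_one_iff.1 hg)
  have hqB : Function.Injective (q.comp (incl am)) := by
    rw [injective_iff_map_eq_one]
    intro g hg
    exact hB g (PresentedGroup.mk_eq_one_iff.1 hg)
  set e := shiftEquiv a m M aM am haM ham with he
  set φ : (q.comp (incl aM)).range ≃* (q.comp (incl am)).range :=
    (MonoidHom.ofInjective hqA).symm.trans
      ((FreeGroup.freeGroupCongr e).trans (MonoidHom.ofInjective hqB)) with hφdef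
  have hφ : ∀ g, φ (MonoidHom.ofInjective hqA g) =
      MonoidHom.ofInjective hqB (FreeGroup.map e g) := by
    intro g
    rw [hφdef, MulEquiv.trans_apply, MulEquiv.symm_apply_apply]
    rfl
  set Θ : FreeGroup X →* HNNExtension (PresentedGroup {r1}) _ _ φ :=
    FreeGroup.lift (fun x => if h : x = t then HNNExtension.t else
      HNNExtension.of (q (of ⟨(⟨x, h⟩, 0), fun _ => ⟨hm, hM⟩⟩))) with hΘdef
  have hΘt : Θ (of t) = HNNExtension.t := by simp [hΘdef]
  have hΘx : ∀ (x : X) (h : x ≠ t), Θ (of x) =
      HNNExtension.of (q (of ⟨(⟨x, h⟩, 0), fun _ => ⟨hm, hM⟩⟩)) := by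
    intro x h
    simp [hΘdef, h]
  have step : ∀ c : {x : X1 a m M // x ≠ aM},
      (HNNExtension.of (q (of (e c).1)) : HNNExtension (PresentedGroup {r1}) _ _ φ) =
      HNNExtension.t * HNNExtension.of (q (of c.1)) * HNNExtension.t⁻¹ := by
    intro c
    have h1 := HNNExtension.equiv_eq_conj (φ := φ) (MonoidHom.ofInjective hqA (of c))
    rw [hφ, MonoidHom.ofInjective_apply, MonoidHom.ofInjective_apply] at h1
    simpa using h1
  have hrho : ∀ (x : {x : X // x ≠ t}) (i : ℤ) (h : x = a → m ≤ i ∧ i ≤ M),
      Θ (rho t (of (x, i))) = HNNExtension.of (q (of ⟨(x, i), h⟩)) := by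
    intro x i
    have hr1 : ∀ i : ℤ, rho t (of (x, i + 1)) = of t * rho t (of (x, i)) * (of t)⁻¹ := by
      intro i
      rw [rho_of, rho_of]
      simp only
      rw [add_comm i 1, zpow_add, zpow_one]
      group
    induction i using Int.induction_on with
    | zero =>
      intro h
      rw [rho_of]
      simp only [zpow_zero, one_mul, inv_one, mul_one]
      rw [hΘx x.1 x.2]
    | succ i ih =>
      intro h
      have h' : x = a → m ≤ (i : ℤ) ∧ (i : ℤ) ≤ M := fun hx => by
        have := h hx
        constructor <;> omega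
      have hne : (⟨(x, (i : ℤ)), h'⟩ : X1 a m M) ≠ aM := by
        intro hcon
        have h1 : (x, (i : ℤ)) = (a, M) := by rw [← haM, ← hcon]
        have h2 := congrArg Prod.fst h1
        have h3 := congrArg Prod.snd h1
        have h4 := h h2
        simp only at h3
        omega
      have h1 := step ⟨⟨(x, (i : ℤ)), h'⟩, hne⟩
      rw [hr1, map_mul, map_mul, map_inv, hΘt, ih h', ← h1]
      rfl
    | pred i ih =>
      intro h
      have h' : x = a → m ≤ (-i : ℤ) ∧ (-i : ℤ) ≤ M := fun hx => by
        have := h hx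
        constructor <;> omega
      have hne : (⟨(x, (-i - 1 : ℤ)), h⟩ : X1 a m M) ≠ aM := by
        intro hcon
        have h1 : (x, (-i - 1 : ℤ)) = (a, M) := by rw [← haM, ← hcon]
        have h3 := congrArg Prod.snd h1
        simp only at h3
        omega
      have h1 := step ⟨⟨(x, (-i - 1 : ℤ)), h⟩, hne⟩
      have h2 : (e ⟨⟨(x, (-i - 1 : ℤ)), h⟩, hne⟩).1 = ⟨(x, (-i : ℤ)), h'⟩ := by
        apply Subtype.ext
        apply Prod.ext
        · rfl
        · show (-i - 1 : ℤ) + 1 = -i
          omega
      rw [h2, ← ih h'] at h1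
      have h3 := hr1 (-i - 1)
      have h4 : (-i - 1 + 1 : ℤ) = -i := by omega
      rw [h4] at h3
      rw [h3, map_mul, map_mul, map_inv, hΘt] at h1
      have h5 := mul_right_cancel h1
      exact mul_left_cancel h5
  have hΘ : ∀ g : FreeGroup (X1 a m M), Θ (rho t (jj a m M g)) =
        HNNExtension.of (q g) := by
    intro g
    have : Θ.comp ((rho t).comp (jj a m M)) = HNNExtension.of.comp q := by
      ext c
      have := hrho c.1.1 c.1.2 c.2
      simpa using this
    exact DFunLike.congr_fun this g
  refine ⟨_, _, φ, Θ, ?_, hΘ⟩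
  have hΘr : Θ r = 1 := by
    have h1 : Θ (c * r * c⁻¹) = 1 := by
      rw [← hr, hΘ]
      have : q r1 = 1 := PresentedGroup.one_of_mem rfl
      rw [this, map_one]
    rw [map_mul, map_mul, map_inv] at h1
    calc Θ r = (Θ c)⁻¹ * (Θ c * Θ r * (Θ c)⁻¹) * Θ c := by group
      _ = 1 := by rw [h1]; group
  set π : FreeGroup X →* PresentedGroup {r} := PresentedGroup.mk {r} with hπ
  have hπr : π (c * r * c⁻¹) = 1 := by
    have : π r = 1 := PresentedGroup.one_of_mem rfl
    rw [map_mul, map_mul, this, map_inv]
    group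
  have hlift : ∀ s ∈ ({r1} : Set (FreeGroup (X1 a m M))),
      FreeGroup.lift (fun x : X1 a m M => π (rho t (jj a m M (of x)))) s = 1 := by
    intro s hs
    rw [Set.mem_singleton_iff] at hs
    subst hs
    have : FreeGroup.lift (fun x : X1 a m M => π (rho t (jj a m M (of x)))) =
        π.comp ((rho t).comp (jj a m M)) := by
      ext x
      simp
    rw [this]
    show π (rho t (jj a m M s)) = 1
    rw [hr, hπr]
  set f : PresentedGroup {r1} →* PresentedGroup {r} := PresentedGroup.toGroup hlift with hf
  have hfq : ∀ g, f (q g) = π (rho t (jj a m M g)) := by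
    intro g
    have : f.comp q = π.comp ((rho t).comp (jj a m M)) := by
      ext x
      have h1 : f (q (of x)) = π (rho t (jj a m M (of x))) := by
        have h2 : q (of x) = PresentedGroup.of x := rfl
        rw [h2, hf]
        exact PresentedGroup.toGroup.of hlift
      exact h1
    exact DFunLike.congr_fun this g
  have hx : ∀ y : (q.comp (incl aM)).range, π (of t) * f (y : PresentedGroup {r1}) =
      f (φ y : PresentedGroup {r1}) * π (of t) := by
    intro y
    obtain ⟨g, rfl⟩ := (MonoidHom.ofInjective hqA).surjective y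
    rw [hφ, MonoidHom.ofInjective_apply, MonoidHom.ofInjective_apply]
    rw [MonoidHom.comp_apply, MonoidHom.comp_apply, hfq, hfq]
    have h1 : jj a m M (incl am (FreeGroup.map e g)) =
        FreeGroup.map (shift t 1) (jj a m M (incl aM g)) := by
      have : (jj a m M).comp ((incl am).comp (FreeGroup.map e)) =
          (FreeGroup.map (shift t 1)).comp ((jj a m M).comp (incl aM)) := by
        ext x
        simp only [MonoidHom.comp_apply, FreeGroup.map.of]
        rfl
      exact DFunLike.congr_fun this g
    rw [h1, rho_shift, map_mul, map_mul, map_inv, zpow_one]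
    group
  set Ξ : HNNExtension (PresentedGroup {r1}) _ _ φ →* PresentedGroup {r} :=
    HNNExtension.lift f (π (of t)) hx with hΞ
  have hcomp : ∀ g, Ξ (Θ g) = π g := by
    intro g
    have : Ξ.comp Θ = π := by
      ext x
      show Ξ (Θ (of x)) = π (of x)
      by_cases hxt : x = t
      · subst hxt
        rw [hΘt, hΞ, HNNExtension.lift_t]
      · rw [hΘx x hxt, hΞ, HNNExtension.lift_of, hfq]
        congr 1
    exact DFunLike.congr_fun this g
  intro g
  constructor
  · intro h
    have h1 := hcomp g
    rw [h, map_one] at h1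
    exact PresentedGroup.mk_eq_one_iff.1 h1.symm
  · intro h
    exact hom_eq_one_of_mem Θ hΘr h

end OneRel
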