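import Mathlib

/-!
# Torsion in HNN extensions

If the base group has no nontrivial element of order dividing `p`, neither has the HNN extension.
-/

namespace OneRel

open HNNExtension

section HNN

variable {G : Type*} [Group G] {A B : Subgroup G} {φ : A ≃* B}

theorem pow_mul_comm_eq_one {H : Type*} [Group H] {x y : H} {p : ℕ} (h : (x * y) ^ p = 1) :
    (y * x) ^ p = 1 := by
  have h1 : y * x = x⁻¹ * (x * y) * x := by group
  have h2 : (x⁻¹ * (x * y) * x) ^ p = x⁻¹ * (x * y) ^ p * x := by
    have := conj_pow (i := p) (a := x⁻¹) (b := x * y)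
    simpa using this
  rw [h1, h2, h]
  simp

theorem mul_comm_eq_one {H : Type*} [Group H] {x y : H} (h : x * y = 1) : y * x = 1 := by
  have := pow_mul_comm_eq_one (p := 1) (x := x) (y := y) (by simpa using h)
  simpa using this

/-- product of a list of syllables `t ^ u * g`. -/
def cw (φ : A ≃* B) (l : List (ℤˣ × G)) : HNNExtension G A B φ :=
  (l.map (fun x => t ^ (x.1 : ℤ) * of x.2)).prod

theorem cw_nil : cw φ ([] : List (ℤˣ × G)) = 1 := rfl

theorem cw_cons (a : ℤˣ × G) (l : List (ℤˣ × G)) :
    cw φ (a :: l) = t ^ (a.1 : ℤ) * of a.2 * cw φ l := by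
  simp [cw]

theorem cw_append (l₁ l₂ : List (ℤˣ × G)) : cw φ (l₁ ++ l₂) = cw φ l₁ * cw φ l₂ := by
  simp [cw]

theorem cw_flatten_replicate (l : List (ℤˣ × G)) (k : ℕ) :
    cw φ (List.replicate k l).flatten = cw φ l ^ k := by
  induction k with
  | zero => simp [cw]
  | succ k ih => rw [List.replicate_succ, List.flatten_cons, cw_append, ih, pow_succ']

theorem exists_bad {α : Type*} {R : α → α → Prop} : ∀ l : List α, ¬ l.IsChain R →
    ∃ l₁ a b l₂, l = l₁ ++ a :: b :: l₂ ∧ ¬ R a b := by
  intro l
  induction l with
  | nil => intro h; exact absurd List.isChain_nil h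
  | cons a l ih =>
    intro h
    by_cases hl : l.IsChain R
    · cases l with
      | nil => exact absurd (List.isChain_singleton a) h
      | cons b l =>
        refine ⟨[], a, b, l, rfl, fun hR => h ?_⟩
        exact List.isChain_cons_cons.2 ⟨hR, hl⟩
    · obtain ⟨l₁, x, y, l₂, rfl, hxy⟩ := ih hl
      exact ⟨a :: l₁, x, y, l₂, rfl, hxy⟩

theorem isChain_flatten_replicate {α : Type*} {R : α → α → Prop} {l : List α}
    (h : (l ++ l).IsChain R) (k : ℕ) : (List.replicate k l).flatten.IsChain R := by
  rw [List.isChain_append] at h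
  obtain ⟨h1, -, h2⟩ := h
  induction k with
  | zero => simp
  | succ k ih =>
    rw [List.replicate_succ, List.flatten_cons, List.isChain_append]
    refine ⟨h1, ih, fun x hx y hy => h2 x hx y ?_⟩
    cases k with
    | zero => simp at hy
    | succ k =>
      rw [List.replicate_succ, List.flatten_cons] at hy
      cases l with
      | nil => simp at hx
      | cons a l => simpa using hy

theorem bad_pair (a b : ℤˣ × G) (h : ¬ (a.2 ∈ toSubgroup A B a.1 → a.1 = b.1)) :
    ∃ k : G, t ^ (a.1 : ℤ) * of a.2 * (t ^ (b.1 : ℤ) * of b.2) =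
      (of k : HNNExtension G A B φ) := by
  obtain ⟨u, g⟩ := a
  obtain ⟨v, g'⟩ := b
  simp only [Classical.not_imp] at h
  obtain ⟨h1, h2⟩ := h
  have hv : v = -u := by
    rcases Int.units_eq_one_or u with rfl | rfl <;> rcases Int.units_eq_one_or v with rfl | rfl
    · exact absurd rfl h2
    · rfl
    · rfl
    · exact absurd rfl h2
  subst hv
  rcases Int.units_eq_one_or u with rfl | rfl
  · have h3 : g ∈ A := h1
    refine ⟨φ ⟨g, h3⟩ * g', ?_⟩
    rw [map_mul, equiv_eq_conj]
    simp [mul_assoc]
  · have h3 : g ∈ B := h1
    refine ⟨φ.symm ⟨g, h3⟩ * g', ?_⟩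
    rw [map_mul, equiv_symm_eq_conj]
    simp [mul_assoc]

theorem hnn_torsion_aux {p : ℕ} (hp : p ≠ 0) (hG : ∀ g : G, g ^ p = 1 → g = 1) :
    ∀ (n : ℕ) (l : List (ℤˣ × G)) (h : G), l.length = n →
      ((of h * cw φ l : HNNExtension G A B φ)) ^ p = 1 →
      (of h * cw φ l : HNNExtension G A B φ) = 1 := by
  intro n
  induction n using Nat.strong_induction_on with
  | _ n ih =>
    -- version without head
    have key : ∀ l : List (ℤˣ × G), l ≠ [] → l.length = n → (cw φ l) ^ p = 1 → cw φ l = 1 := by
      intro l hl hn hpow
      -- reduction step: a rotation of `l` starts with a bad pair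
      have step : ∀ (a b : ℤˣ × G) (l' : List (ℤˣ × G)), l'.length + 2 = n →
          ¬ (a.2 ∈ toSubgroup A B a.1 → a.1 = b.1) →
          (cw φ (a :: b :: l')) ^ p = 1 → cw φ (a :: b :: l') = 1 := by
        intro a b l' hlen hbad hpw
        obtain ⟨k, hk⟩ := bad_pair (φ := φ) a b hbad
        have h1 : cw φ (a :: b :: l') = of k * cw φ l' := by
          rw [cw_cons, cw_cons, ← hk]
          simp only [mul_assoc]
        rw [h1] at hpw ⊢
        exact ih l'.length (by omega) l' k rfl hpw
      by_cases hc : (l ++ l).IsChain (fun a b => a.2 ∈ toSubgroup A B a.1 → a.1 = b.1)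
      · exfalso
        have h1 := isChain_flatten_replicate hc p
        let w : NormalWord.ReducedWord G A B :=
          { head := 1, toList := (List.replicate p l).flatten, chain := h1 }
        have h2 : w.prod φ = 1 := by
          have : w.prod φ = of 1 * cw φ (List.replicate p l).flatten := rfl
          rw [this, cw_flatten_replicate, hpow]
          simp
        have h3 := ReducedWord.toList_eq_nil_of_mem_of_range φ w (by rw [h2]; exact one_mem _)
        have h4 : (List.replicate p l).flatten = [] := h3
        obtain ⟨q, rfl⟩ := Nat.exists_eq_succ_of_ne_zero hp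
        rw [Nat.succ_eq_add_one, List.replicate_succ, List.flatten_cons] at h4
        exact hl (List.append_eq_nil_iff.1 h4).1
      · rw [List.isChain_append] at hc
        by_cases hc1 : l.IsChain (fun a b => a.2 ∈ toSubgroup A B a.1 → a.1 = b.1)
        · -- junction is bad
          have hc2 : ∃ x ∈ l.getLast?, ∃ y ∈ l.head?,
              ¬ (x.2 ∈ toSubgroup A B x.1 → x.1 = y.1) := by
            by_contra hcon
            push Not at hcon
            exact hc ⟨hc1, hc1, fun x hx y hy hxx => hcon x hx y hy hxx⟩
          obtain ⟨x, hx, y, hy, hxy⟩ := hc2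
          have hx' : ∃ l₁, l = l₁ ++ [x] := List.mem_getLast?_eq_getLast hx |>.elim fun h1 h2 =>
            ⟨l.dropLast, by rw [h2]; exact (List.dropLast_append_getLast h1).symm⟩
          obtain ⟨l₁, rfl⟩ := hx'
          cases l₁ with
          | nil =>
            simp at hy
            subst hy
            exact absurd (fun _ => rfl) hxy
          | cons z l₁ =>
            simp at hy
            subst hy
            have h1 : (cw φ (x :: z :: l₁)) ^ p = 1 := by
              have h2 : cw φ (z :: l₁ ++ [x]) = cw φ (z :: l₁) * cw φ [x] := cw_append _ _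
              rw [h2] at hpow
              have h3 := pow_mul_comm_eq_one hpow
              rwa [← cw_append] at h3
            have h2 := step x z l₁ (by simp at hn; omega) hxy h1
            have h3 : cw φ [x] * cw φ (z :: l₁) = 1 := by
              rw [← cw_append]; exact h2
            have h4 := mul_comm_eq_one h3
            rwa [← cw_append] at h4
        · obtain ⟨l₁, a, b, l₂, rfl, hab⟩ := exists_bad l hc1
          have h1 : (cw φ (a :: b :: (l₂ ++ l₁))) ^ p = 1 := by
            rw [cw_append] at hpow
            have h3 := pow_mul_comm_eq_one hpow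
            rwa [← cw_append] at h3
          have h2 := step a b (l₂ ++ l₁) (by simp at hn ⊢; omega) hab h1
          have h3 : cw φ (a :: b :: l₂) * cw φ l₁ = 1 := by
            rw [← cw_append]; exact h2
          have h4 := mul_comm_eq_one h3
          rwa [← cw_append] at h4
    intro l h hn hpow
    rcases List.eq_nil_or_concat l with rfl | ⟨l', ⟨u, g⟩, rfl⟩
    · rw [cw_nil, mul_one] at hpow ⊢
      rw [← map_pow] at hpow
      have h1 : h ^ p = 1 := of_injective φ (by rw [hpow, map_one])
      rw [hG h h1, map_one]
    · have h1 : ∀ g' : G, cw φ (l'.concat (u, g')) = cw φ l' * (t ^ (u : ℤ) * of g') := by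
        intro g'
        rw [List.concat_eq_append, cw_append]
        simp [cw]
      have h2 : of h * cw φ (l'.concat (u, g)) =
          of h * (cw φ l' * (t ^ (u : ℤ) * of g)) := by rw [h1]
      rw [h2] at hpow ⊢
      have h3 := pow_mul_comm_eq_one hpow
      have h4 : cw φ l' * (t ^ (u : ℤ) * of g) * of h = cw φ (l'.concat (u, g * h)) := by
        rw [h1, map_mul]
        simp only [mul_assoc]
      rw [h4] at h3
      have h5 := key _ (by simp) (by simpa using hn) h3
      rw [← h4] at h5
      exact mul_comm_eq_one h5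

/-- If the base has no element `≠ 1` with `g ^ p = 1`, neither has the HNN extension. -/
theorem hnn_torsion {p : ℕ} (hp : p ≠ 0) (hG : ∀ g : G, g ^ p = 1 → g = 1)
    (x : HNNExtension G A B φ) (hx : x ^ p = 1) : x = 1 := by
  have h1 : ∃ (h : G) (l : List (ℤˣ × G)), x = of h * cw φ l := by
    obtain ⟨d⟩ := NormalWord.TransversalPair.nonempty G A B
    exact ⟨(x • (NormalWord.empty : NormalWord d)).head,
      (x • (NormalWord.empty : NormalWord d)).toList, ((NormalWord.equiv φ d).left_inv x).symm⟩
  obtain ⟨h, l, rfl⟩ := h1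
  exact hnn_torsion_aux hp hG l.length l h rfl hx

end HNN

end OneRel
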