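import Pool.Agent.Lib.MP_8396f3_al.Core
import Pool.Agent.Lib.MP_8396f3_al.HNNTorsion

/-!
# The induction step for relators with exponent sum zero
-/

universe u

namespace OneRel

open FreeGroup (of mk mul_mk one_eq_mk)

variable {X : Type u}

/-- The induction hypothesis. -/
def IHyp (n : ℕ) : Prop :=
  ∀ (Y : Type u) (M : List (Y × Bool)), M.length < n →
    (∀ z, Proper (mk M) z → FP (mk M) z) ∧
    (∀ p : ℕ, p.Prime → ∀ ε : FreeGroup Y →* Multiplicative (ZMod p),
      ε (mk M) ≠ 1 → TP p (mk M))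

/-- `L` is a word of minimal length with `rho (mk L)` conjugate to `r`. -/
def MinRep (t : X) (r : FreeGroup X) (L : List (XP t × Bool)) : Prop :=
  (∃ c, rho t (mk L) = c * r * c⁻¹) ∧
  ∀ (L' : List (XP t × Bool)) (c' : FreeGroup X), rho t (mk L') = c' * r * c'⁻¹ →
    L.length ≤ L'.length

theorem exists_minRep (t : X) (r : FreeGroup X) (L₀ : List (XP t × Bool)) (c₀ : FreeGroup X)
    (h₀ : rho t (mk L₀) = c₀ * r * c₀⁻¹) :
    ∃ L, MinRep t r L ∧ L.length ≤ L₀.length := by
  classical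
  let P : ℕ → Prop := fun n => ∃ (L : List (XP t × Bool)) (c : FreeGroup X),
    rho t (mk L) = c * r * c⁻¹ ∧ L.length = n
  have hP : ∃ n, P n := ⟨L₀.length, L₀, c₀, h₀, rfl⟩
  obtain ⟨L, c, h1, h2⟩ := Nat.find_spec hP
  refine ⟨L, ⟨⟨c, h1⟩, fun L' c' h => ?_⟩, ?_⟩
  · rw [h2]
    exact Nat.find_min' hP ⟨L', c', h, rfl⟩
  · rw [h2]
    exact Nat.find_min' hP ⟨L₀, c₀, h₀, rfl⟩

theorem MinRep.shift {t : X} {r : FreeGroup X} {L : List (XP t × Bool)} (h : MinRep t r L)
    (k : ℤ) : MinRep t r (L.map (fun c => (OneRel.shift t k c.1, c.2))) := by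
  obtain ⟨⟨c, hc⟩, hmin⟩ := h
  refine ⟨⟨of t ^ k * c, ?_⟩, fun L' c' h' => ?_⟩
  · rw [← FreeGroup.map.mk, rho_shift, hc]
    group
  · rw [List.length_map]
    exact hmin L' c' h'

theorem exists_lift_list {α : Type*} {P : α → Prop} (L : List (α × Bool)) (h : ∀ x ∈ L, P x.1) :
    ∃ L₁ : List ({x : α // P x} × Bool), L₁.map (fun x => (x.1.1, x.2)) = L := by
  induction L with
  | nil => exact ⟨[], rfl⟩
  | cons a L ih =>
    obtain ⟨L₁, h1⟩ := ih (fun x hx => h x (List.mem_cons_of_mem _ hx))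
    refine ⟨(⟨a.1, h a List.mem_cons_self⟩, a.2) :: L₁, ?_⟩
    rw [List.map_cons, h1]

theorem exists_range {t : X} (a : {x : X // x ≠ t}) (L : List (XP t × Bool)) (b₀ : Bool)
    (h0 : ((a, 0), b₀) ∈ L) :
    ∃ m M : ℤ, m ≤ 0 ∧ 0 ≤ M ∧ (∃ b, ((a, m), b) ∈ L) ∧ (∃ b, ((a, M), b) ∈ L) ∧
      ∀ c ∈ L, c.1.1 = a → m ≤ c.1.2 ∧ c.1.2 ≤ M := by
  classical
  let S : Finset ℤ := (L.map (fun c => c.1.2)).toFinset.filter (fun i => ∃ b, ((a, i), b) ∈ L)
  have hS : ∀ i, i ∈ S ↔ ∃ b, ((a, i), b) ∈ L := by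
    intro i
    simp only [S, Finset.mem_filter, List.mem_toFinset, List.mem_map, and_iff_right_iff_imp]
    rintro ⟨b, hb⟩
    exact ⟨_, hb, rfl⟩
  have hne : S.Nonempty := ⟨0, (hS 0).2 ⟨b₀, h0⟩⟩
  refine ⟨S.min' hne, S.max' hne, S.min'_le 0 ((hS 0).2 ⟨b₀, h0⟩),
    S.le_max' 0 ((hS 0).2 ⟨b₀, h0⟩), (hS _).1 (S.min'_mem hne), (hS _).1 (S.max'_mem hne), ?_⟩
  intro c hc hca
  have : c.1.2 ∈ S := (hS _).2 ⟨c.2, by rw [← hca]; exact hc⟩
  exact ⟨S.min'_le _ this, S.le_max' _ this⟩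

theorem setup {n : ℕ} (IH : IHyp.{u} n) {t : X} (a : {x : X // x ≠ t}) {r : FreeGroup X}
    {L : List (XP t × Bool)} (hL : MinRep t r L) (hn : L.length < n) {b₀ : Bool}
    (h0 : ((a, 0), b₀) ∈ L) :
    ∃ (m M : ℤ) (L₁ : List (X1 a m M × Bool)), m ≤ 0 ∧ 0 ≤ M ∧
      L₁.map (fun x => (x.1.1, x.2)) = L ∧ Lmin L₁ ∧
      ∃ (A B : Subgroup (PresentedGroup {mk L₁})) (φ : A ≃* B)
        (Θ : FreeGroup X →* HNNExtension (PresentedGroup {mk L₁}) A B φ),
        (∀ g, Θ g = 1 ↔ g ∈ Subgroup.normalClosure {r}) ∧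
        (∀ g : FreeGroup (X1 a m M), Θ (rho t (jj a m M g)) =
          HNNExtension.of (PresentedGroup.mk {mk L₁} g)) := by
  obtain ⟨m, M, hm, hM, ⟨bm, hbm⟩, ⟨bM, hbM⟩, hrange⟩ := exists_range a L b₀ h0
  obtain ⟨L₁, hL₁⟩ := exists_lift_list (P := fun c : XP t => c.1 = a → m ≤ c.2 ∧ c.2 ≤ M) L
    (fun x hx => hrange x hx)
  have hlen : L₁.length = L.length := by rw [← hL₁, List.length_map]
  have hjj : jj a m M (mk L₁) = mk L := by
    rw [FreeGroup.map.mk, hL₁]
  obtain ⟨⟨c, hc⟩, hmin⟩ := hL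
  have hLmin : Lmin L₁ := by
    intro L' c' h'
    have h1 : rho t (mk (L'.map (fun x => (x.1.1, x.2)))) =
        (rho t (jj a m M c') * c) * r * (rho t (jj a m M c') * c)⁻¹ := by
      have h2 : jj a m M (c' * mk L₁ * c'⁻¹) = jj a m M c' * mk L * (jj a m M c')⁻¹ := by
        rw [map_mul, map_mul, map_inv, hjj]
      have h3 : (mk (L'.map (fun x => (x.1.1, x.2))) : FreeGroup (XP t)) =
          jj a m M (mk L') := (FreeGroup.map.mk).symm
      rw [h3, h', h2, map_mul, map_mul, map_inv, hc]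
      group
    have h2 := hmin _ _ h1
    rw [List.length_map] at h2
    omega
  have hocc : ∀ (i : ℤ) (b : Bool) (hi : a = a → m ≤ i ∧ i ≤ M), ((a, i), b) ∈ L →
      ((⟨(a, i), hi⟩ : X1 a m M), b) ∈ L₁ := by
    intro i b hi hib
    rw [← hL₁, List.mem_map] at hib
    obtain ⟨⟨x, b'⟩, hx, hx'⟩ := hib
    have h1 := congrArg Prod.fst hx'
    have h2 := congrArg Prod.snd hx'
    simp only at h1 h2
    subst h2
    have : x = ⟨(a, i), hi⟩ := Subtype.ext h1
    rw [← this]
    exact hx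
  have hA : FP (mk L₁) (⟨(a, M), fun _ => ⟨by omega, le_rfl⟩⟩ : X1 a m M) := by
    apply (IH _ L₁ (by omega)).1
    exact hLmin.proper (hocc M bM _ hbM)
  have hB : FP (mk L₁) (⟨(a, m), fun _ => ⟨le_rfl, by omega⟩⟩ : X1 a m M) := by
    apply (IH _ L₁ (by omega)).1
    exact hLmin.proper (hocc m bm _ hbm)
  refine ⟨m, M, L₁, hm, hM, hL₁, hLmin, ?_⟩
  exact core a m M hm hM _ _ rfl rfl (mk L₁) hA hB r c (by rw [hjj, hc])

theorem tp_step {n : ℕ} (IH : IHyp.{u} n) {t : X} (a : {x : X // x ≠ t}) {r : FreeGroup X}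
    {L : List (XP t × Bool)} (hL : MinRep t r L) (hn : L.length < n) {b₀ : Bool}
    (h0 : ((a, 0), b₀) ∈ L) {p : ℕ} (hp : p.Prime) (ε : FreeGroup X →* Multiplicative (ZMod p))
    (hε : ε r ≠ 1) : TP p r := by
  obtain ⟨m, M, L₁, hm, hM, hL₁, hLmin, A, B, φ, Θ, hΘ1, hΘ2⟩ := setup IH a hL hn h0
  have hlen : L₁.length = L.length := by rw [← hL₁, List.length_map]
  have hjj : jj a m M (mk L₁) = mk L := by
    rw [FreeGroup.map.mk, hL₁]
  have h1 : TP p (mk L₁) := by
    apply (IH _ L₁ (by omega)).2 p hp (ε.comp ((rho t).comp (jj a m M)))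
    rw [MonoidHom.comp_apply, MonoidHom.comp_apply, hjj]
    obtain ⟨⟨c, hc⟩, hmin⟩ := hL
    rw [hc, hom_conj]
    exact hε
  have hG : ∀ g : PresentedGroup {mk L₁}, g ^ p = 1 → g = 1 := by
    intro g hg
    obtain ⟨y, rfl⟩ := PresentedGroup.mk_surjective _ g
    rw [← map_pow] at hg
    exact PresentedGroup.mk_eq_one_iff.2 (h1 y (PresentedGroup.mk_eq_one_iff.1 hg))
  intro g hg
  rw [← hΘ1] at hg ⊢
  rw [map_pow] at hg
  exact hnn_torsion hp.ne_zero hG _ hg

theorem fp_step_ne {n : ℕ} (IH : IHyp.{u} n) {t : X} (a : {x : X // x ≠ t}) {r : FreeGroup X}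
    {L : List (XP t × Bool)} (hL : MinRep t r L) (hn : L.length < n) {b₀ : Bool}
    (h0 : ((a, 0), b₀) ∈ L) : FP r a.1 := by
  classical
  obtain ⟨m, M, L₁, hm, hM, hL₁, hLmin, A, B, φ, Θ, hΘ1, hΘ2⟩ := setup IH a hL hn h0
  have hlen : L₁.length = L.length := by rw [← hL₁, List.length_map]
  obtain ⟨⟨c, hc⟩, hmin⟩ := hL
  set z0 : X1 a m M := ⟨(a, 0), fun _ => ⟨hm, hM⟩⟩ with hz0
  have hocc : (z0, b₀) ∈ L₁ := by
    rw [← hL₁, List.mem_map] at h0
    obtain ⟨⟨x, b'⟩, hx, hx'⟩ := h0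
    have h1 := congrArg Prod.fst hx'
    have h2 := congrArg Prod.snd hx'
    simp only at h1 h2
    subst h2
    have : x = z0 := Subtype.ext h1
    rw [← this]
    exact hx
  have hFP : FP (mk L₁) z0 := (IH _ L₁ (by omega)).1 _ (hLmin.proper hocc)
  intro g hg
  -- exponent sum of `t`
  have hext : ex t r = 1 := by
    rw [← hom_conj (ex t) c r, ← hc, ex_rho]
  have hexg : ex t (incl a.1 g) = 1 := hom_eq_one_of_mem (ex t) hext hg
  set tY : {x : X // x ≠ a.1} := ⟨t, a.2.symm⟩ with htY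
  have hex2 : ∀ y : FreeGroup {x : X // x ≠ a.1}, ex t (incl a.1 y) = ex tY y := by
    intro y
    have : (ex t).comp (incl a.1) = ex tY := by
      ext x
      by_cases hx : x = tY
      · subst hx
        simp [ex_of_self, htY]
      · have hx' : x.1 ≠ t := fun h => hx (Subtype.ext h)
        simp [ex_of_ne hx, ex_of_ne hx']
    exact DFunLike.congr_fun this y
  obtain ⟨Lg, rfl⟩ : ∃ Lg, mk Lg = g := Quot.exists_rep g
  obtain ⟨L', h, e1, -, -⟩ := rewriting tY (MonoidHom.id _) 1 (fun _ => 0) (by simp)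
    (by intro x _; simp) Lg
  rw [MonoidHom.id_apply] at e1
  have hh : h = 0 := by
    rw [hex2, e1, map_mul, ex_rho, one_mul, map_zpow, ex_of_self] at hexg
    have := congrArg Multiplicative.toAdd hexg
    simpa using this
  rw [hh, zpow_zero, mul_one] at e1
  set jm : XP tY → {x : X1 a m M // x ≠ z0} := fun c =>
    ⟨⟨(⟨c.1.1.1, fun h => c.1.2 (Subtype.ext h)⟩, c.2), fun h => by
      exact absurd (congrArg Subtype.val h) c.1.1.2⟩, fun h => by
      have h1 := congrArg (fun y : X1 a m M => y.1.1.1) h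
      exact absurd h1 c.1.1.2⟩ with hjm
  have hjinj : Function.Injective jm := by
    intro c c' h
    have h1 := congrArg (fun y : {x : X1 a m M // x ≠ z0} => y.1.1.1.1) h
    have h2 := congrArg (fun y : {x : X1 a m M // x ≠ z0} => y.1.1.2) h
    exact Prod.ext (Subtype.ext (Subtype.ext h1)) h2
  have hkey : ∀ y : FreeGroup (XP tY), incl a.1 (rho tY y) =
      rho t (jj a m M (incl z0 (FreeGroup.map jm y))) := by
    intro y
    have : (incl a.1).comp (rho tY) =
        (rho t).comp ((jj a m M).comp ((incl z0).comp (FreeGroup.map jm))) := by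
      ext c
      simp only [MonoidHom.comp_apply, FreeGroup.map.of, rho_of, map_mul, map_zpow, map_inv]
      rfl
    exact DFunLike.congr_fun this y
  rw [e1, hkey, ← hΘ1, hΘ2] at hg
  have h2 : PresentedGroup.mk {mk L₁} (incl z0 (FreeGroup.map jm (mk L'))) = 1 := by
    apply HNNExtension.of_injective φ
    rw [hg, map_one]
  have h3 := hFP _ (PresentedGroup.mk_eq_one_iff.1 h2)
  have h4 : (mk L' : FreeGroup (XP tY)) = 1 := by
    apply FreeGroup.map_injective hjinj
    rw [h3, map_one]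
  rw [e1, h4, map_one]

theorem fp_step_self {n : ℕ} (IH : IHyp.{u} n) {t : X} (a : {x : X // x ≠ t}) {r : FreeGroup X}
    {L : List (XP t × Bool)} (hL : MinRep t r L) (hn : L.length < n) {b₀ : Bool}
    (h0 : ((a, 0), b₀) ∈ L) (hprop : Proper r t) : FP r t := by
  classical
  obtain ⟨m, M, L₁, hm, hM, hL₁, hLmin, A, B, φ, Θ, hΘ1, hΘ2⟩ := setup IH a hL hn h0
  have hlen : L₁.length = L.length := by rw [← hL₁, List.length_map]
  obtain ⟨⟨c, hc⟩, hmin⟩ := hL
  have hjj : jj a m M (mk L₁) = mk L := by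
    rw [FreeGroup.map.mk, hL₁]
  -- a letter with nonzero index
  have hw : ∃ w ∈ L₁, w.1.1.2 ≠ 0 := by
    by_contra hcon
    push Not at hcon
    apply hprop c
    rw [← hc, ← hjj]
    refine ⟨FreeGroup.map (fun y : X1 a m M => y.1.1) (mk L₁), ?_⟩
    have hlist : ∀ K : List (X1 a m M × Bool), (∀ w ∈ K, w.1.1.2 = 0) →
        incl t (FreeGroup.map (fun y : X1 a m M => y.1.1) (mk K)) = rho t (jj a m M (mk K)) := by
      intro K
      induction K with
      | nil => intro _; rw [mk_nil]; simp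
      | cons w K ih =>
        intro hK
        rw [mk_cons, map_mul, map_mul, map_mul, map_mul, ih (fun w hw => hK w
          (List.mem_cons_of_mem _ hw))]
        congr 1
        have h1 := hK w List.mem_cons_self
        obtain ⟨w1, b⟩ := w
        simp only at h1
        cases b
        · simp only [cond_false, map_inv, FreeGroup.map.of, rho_of, h1]
          simp
        · simp only [cond_true, FreeGroup.map.of, rho_of, h1]
          simp
    exact hlist L₁ hcon
  obtain ⟨⟨w0, bw⟩, hw0, hw1⟩ := hw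
  have hFP : FP (mk L₁) w0 := (IH _ L₁ (by omega)).1 _ (hLmin.proper hw0)
  intro g hg
  set jm : {x : X // x ≠ t} → {x : X1 a m M // x ≠ w0} := fun x =>
    ⟨⟨(x, 0), fun _ => ⟨hm, hM⟩⟩, fun h => by
      apply hw1
      rw [← h]⟩ with hjm
  have hjinj : Function.Injective jm := by
    intro c c' h
    exact congrArg (fun y : {x : X1 a m M // x ≠ w0} => y.1.1.1) h
  have hkey : ∀ y : FreeGroup {x : X // x ≠ t}, incl t y =
      rho t (jj a m M (incl w0 (FreeGroup.map jm y))) := by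
    intro y
    have : (incl t) =
        (rho t).comp ((jj a m M).comp ((incl w0).comp (FreeGroup.map jm))) := by
      ext c
      simp only [MonoidHom.comp_apply, FreeGroup.map.of, rho_of]
      simp [jm]
    exact DFunLike.congr_fun this y
  rw [hkey, ← hΘ1, hΘ2] at hg
  have h2 : PresentedGroup.mk {mk L₁} (incl w0 (FreeGroup.map jm g)) = 1 := by
    apply HNNExtension.of_injective φ
    rw [hg, map_one]
  have h3 := hFP _ (PresentedGroup.mk_eq_one_iff.1 h2)
  apply FreeGroup.map_injective hjinj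
  rw [h3, map_one]

/-- The induction step: if `r` is conjugate to `rho (mk L₀)` with `L₀` short, both statements
hold for `r`. -/
theorem cover_step {n : ℕ} (IH : IHyp.{u} n) {t : X} {r : FreeGroup X}
    (L₀ : List (XP t × Bool)) (hn : L₀.length < n) (c₀ : FreeGroup X)
    (h₀ : rho t (mk L₀) = c₀ * r * c₀⁻¹) :
    (∀ z, Proper r z → FP r z) ∧
    (∀ p : ℕ, p.Prime → ∀ ε : FreeGroup X →* Multiplicative (ZMod p), ε r ≠ 1 → TP p r) := by
  classical
  obtain ⟨L, hL, hlen⟩ := exists_minRep t r L₀ c₀ h₀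
  -- normalisation: we can shift any letter to index zero
  have hshift : ∀ (a : {x : X // x ≠ t}) (i : ℤ) (b : Bool), ((a, i), b) ∈ L →
      ∃ L', MinRep t r L' ∧ L'.length < n ∧ ((a, 0), b) ∈ L' := by
    intro a i b hib
    refine ⟨L.map (fun c => (shift t (-i) c.1, c.2)), hL.shift (-i), ?_, ?_⟩
    · rw [List.length_map]; omega
    · rw [List.mem_map]
      refine ⟨((a, i), b), hib, ?_⟩
      simp [shift]
  constructor
  · intro z hz
    by_cases hzt : z = t
    · subst hzt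
      have hne : L ≠ [] := by
        rintro rfl
        obtain ⟨⟨c, hc⟩, -⟩ := hL
        apply hz c
        rw [← hc, mk_nil, map_one]
        exact one_mem _
      obtain ⟨⟨⟨a, i⟩, b⟩, L2, rfl⟩ := List.exists_cons_of_ne_nil hne
      obtain ⟨L', h1, h2, h3⟩ := hshift a i b List.mem_cons_self
      exact fp_step_self IH a h1 h2 h3 hz
    · have hex : ∃ (i : ℤ) (b : Bool), (((⟨z, hzt⟩ : {x : X // x ≠ t}), i), b) ∈ L := by
        by_contra hcon
        push Not at hcon
        obtain ⟨⟨c, hc⟩, -⟩ := hL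
        apply hz c
        rw [← hc]
        have hlist : ∀ K : List (XP t × Bool), (∀ w ∈ K, (w.1.1 : X) ≠ z) →
            rho t (mk K) ∈ (incl z).range := by
          intro K
          induction K with
          | nil => intro _; rw [mk_nil, map_one]; exact one_mem _
          | cons w K ih =>
            intro hK
            rw [mk_cons, map_mul]
            apply mul_mem _ (ih (fun w hw => hK w (List.mem_cons_of_mem _ hw)))
            have h1 := hK w List.mem_cons_self
            have ht : of t ∈ (incl z).range := ⟨of ⟨t, fun h => hzt h.symm⟩, by simp⟩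
            have hw' : of (w.1.1 : X) ∈ (incl z).range := ⟨of ⟨w.1.1, h1⟩, by simp⟩
            have h2 : rho t (of w.1) ∈ (incl z).range := by
              rw [rho_of]
              exact mul_mem (mul_mem (zpow_mem ht _) hw') (inv_mem (zpow_mem ht _))
            cases w.2
            · rw [cond_false, map_inv]
              exact inv_mem h2
            · rw [cond_true]
              exact h2
        apply hlist
        intro w hw hwz
        obtain ⟨⟨w1, i⟩, b⟩ := w
        have : w1 = ⟨z, hzt⟩ := Subtype.ext hwz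
        subst this
        exact hcon i b hw
      obtain ⟨i, b, hib⟩ := hex
      obtain ⟨L', h1, h2, h3⟩ := hshift _ i b hib
      exact fp_step_ne IH ⟨z, hzt⟩ h1 h2 h3
  · intro p hp ε hε
    have hne : L ≠ [] := by
      rintro rfl
      obtain ⟨⟨c, hc⟩, -⟩ := hL
      apply hε
      rw [← hom_conj ε c r, ← hc, mk_nil, map_one, map_one]
    obtain ⟨⟨⟨a, i⟩, b⟩, L2, rfl⟩ := List.exists_cons_of_ne_nil hne
    obtain ⟨L', h1, h2, h3⟩ := hshift a i b List.mem_cons_self
    exact tp_step IH a h1 h2 h3 hp ε hε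

end OneRel
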