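import Pool.Agent.Lib.MP_8396f3_al.GL23
import Pool.Agent.Lib.MP_8396f3_al.Assembly

/-!
# The counterexample: an HNN extension of `GL(2,3)`

`K = GL(2,3)` is generated by `a` of order 2 and `b` of order 6.  The word `w` below satisfies
`R/[R,R] = ℤK w + ℤK a²` and `b⁶ ∈ ℤK w` for the kernel `R` of `F(a,b) → K`.
-/

universe u
namespace RelMod.GL23

/-- The word `w = a⁻² b⁻¹ a b a b² a⁻² b⁻¹ a b a b⁻¹`. -/
def wW : List (Fin 2 × Bool) :=
  [(0, false), (0, false), (1, false), (0, true), (1, true), (0, true), (1, true), (1, true), (0, false), (0, false), (1, false), (0, true), (1, true), (0, true), (1, false)]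
def C1 : List (Fin 48 × ℤ) :=
  [(7, 1), (11, 1), (12, 1), (19, 1), (26, -1), (36, 1), (39, 1), (43, 1)]
def C2 : List (Fin 48 × ℤ) := [(5, 1)]
def C3 : List (Fin 48 × ℤ) := [(5, 1), (14, 1)]

theorem mem_ker_of_lend {L : List (Fin 2 × Bool)} (h : ∀ v, lend P v L = v) :
    FreeGroup.mk L ∈ (sig P).ker := by
  rw [mem_ker_iff]
  intro v
  rw [endp_mk, h]

theorem w_mem : FreeGroup.mk wW ∈ (sig P).ker := mem_ker_of_lend (by decide +kernel)
theorem a2_mem : FreeGroup.mk wa2 ∈ (sig P).ker := mem_ker_of_lend (by decide +kernel)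
theorem b6_mem : FreeGroup.mk wb6 ∈ (sig P).ker := mem_ker_of_lend (by decide +kernel)
theorem z_mem : FreeGroup.mk wz ∈ (sig P).ker := mem_ker_of_lend (by decide +kernel)

theorem b6_flow : ∀ v : Fin 48, ∀ x : Fin 2, cnt P 0 wb6 (v, x) = csum P wW (v, x) C1 := by
  decide +kernel

theorem z_flow : ∀ v : Fin 48, ∀ x : Fin 2,
    cnt P 0 wz (v, x) = csum P wW (v, x) C2 + csum P wa2 (v, x) C3 := by
  decide +kernel

theorem pow2 : (FreeGroup.of 0 : FreeGroup (Fin 2)) ^ 2 = FreeGroup.mk wa2 := by
  decide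

theorem pow6 : (FreeGroup.of 1 : FreeGroup (Fin 2)) ^ 6 = FreeGroup.mk wb6 := by
  decide

theorem h2 : (FreeGroup.of 1 : FreeGroup (Fin 2)) ^ 6 ∈
    Subgroup.normalClosure {FreeGroup.mk wW} ⊔ ⁅(sig P).ker, (sig P).ker⁆ := by
  rw [pow6]
  apply mem_of_flowV_mem_span P regular
  · rw [Set.singleton_subset_iff]
    exact w_mem
  · exact b6_mem
  · have h : flowV P 0 (FreeGroup.mk wb6) = fun e => csum P wW e C1 := by
      funext e
      rw [flowV_mk]
      exact b6_flow e.1 e.2
    rw [h]
    exact csum_mem P (Set.mem_singleton _) C1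

theorem subset_ker : ({FreeGroup.mk wW, FreeGroup.of 0 ^ 2} : Set (FreeGroup (Fin 2))) ⊆
    (sig P).ker := by
  rintro x (rfl | rfl)
  · exact w_mem
  · rw [pow2]
    exact a2_mem

theorem z_mem_N : FreeGroup.mk wz ∈
    Subgroup.normalClosure {FreeGroup.mk wW, FreeGroup.of 0 ^ 2} ⊔
      ⁅(sig P).ker, (sig P).ker⁆ := by
  apply mem_of_flowV_mem_span P regular subset_ker _ z_mem
  have h : flowV P 0 (FreeGroup.mk wz) =
      (fun e => csum P wW e C2) + fun e => csum P wa2 e C3 := by
    funext e
    rw [flowV_mk]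
    exact z_flow e.1 e.2
  rw [h]
  apply add_mem
  · exact csum_mem P (Set.mem_insert _ _) C2
  · apply csum_mem P _ C3
    rw [← pow2]
    exact Set.mem_insert_of_mem _ rfl

theorem rels_mem : ∀ L ∈ rels, FreeGroup.mk L ∈
    Subgroup.normalClosure {FreeGroup.mk wW, FreeGroup.of 0 ^ 2} ⊔
      ⁅(sig P).ker, (sig P).ker⁆ := by
  intro L hL
  rw [rels, List.mem_append] at hL
  rcases hL with hL | hL
  · simp only [List.mem_cons, List.not_mem_nil, or_false] at hL
    rcases hL with rfl | rfl
    · rw [← pow2]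
      exact Subgroup.mem_sup_left (Subgroup.subset_normalClosure (Set.mem_insert_of_mem _ rfl))
    · rw [← pow6]
      have h3 : Subgroup.normalClosure {FreeGroup.mk wW} ≤
          Subgroup.normalClosure ({FreeGroup.mk wW, FreeGroup.of 0 ^ 2} :
            Set (FreeGroup (Fin 2))) := by
        apply Subgroup.normalClosure_mono
        rintro x rfl
        exact Set.mem_insert _ _
      exact (sup_le_sup_right h3 _) h2
  · rw [List.mem_map] at hL
    obtain ⟨i, _, rfl⟩ := hL
    exact mk_rotate_mem wz i z_mem_N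

theorem steps_mem : ∀ q ∈ steps', q.2 ∈ rels := by
  have : steps'.all (fun q => decide (q.2 ∈ rels)) = true := by decide +kernel
  rw [List.all_eq_true] at this
  intro q hq
  exact of_decide_eq_true (this q hq)

theorem h1 : (sig P).ker ≤
    Subgroup.normalClosure {FreeGroup.mk wW, FreeGroup.of 0 ^ 2} ⊔
      ⁅(sig P).ker, (sig P).ker⁆ := by
  apply ker_le_of_collapse P regular subset_ker wd tree tree_ok steps'
  · intro q hq
    exact rels_mem _ (steps_mem q hq)
  · intro e
    exact all_edges e.1 e.2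

/-- The homomorphism `b ↦ b`, `t ↦ τ`. -/
def theta : FreeGroup (Fin 2) →* Equiv.Perm (Fin 48) :=
  FreeGroup.lift ![pb⁻¹, tau]

theorem theta_iota : theta.comp (iota 3) = (MonoidHom.id _).comp (sig P) := by
  apply FreeGroup.ext_hom
  intro i
  fin_cases i
  · simp only [theta, iota, sig, MonoidHom.comp_apply]
    simp only [Fin.zero_eta, FreeGroup.lift_apply_of, Matrix.cons_val_zero, map_mul, map_pow,
      map_inv, MonoidHom.id_apply, Matrix.cons_val_one]
    apply Equiv.ext
    intro i
    have := tau_conj i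
    simpa [pow_succ, P] using this
  · simp [theta, iota, sig, P]

/-- The HNN extension `⟨GL(2,3), t | t b³ t⁻¹ = a⟩` has a cyclic relation module and is not a
one-relator group. -/
theorem main :
    (∃ m : RelationModule (QuotientGroup.mk' (relSub (sig P) 3)) (QuotientGroup.mk'_surjective _),
      Submodule.span (MonoidAlgebra ℤ (HGroup (sig P) 3)) {m} = ⊤) ∧
    ∀ (X : Type u) (r : FreeGroup X), IsEmpty (HGroup (sig P) 3 ≃* PresentedGroup {r}) := by
  apply counterexample (sig P) 3 2 Nat.prime_two 2 6 rfl (FreeGroup.mk wW) w_mem h1 h2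
    (FreeGroup.mk wz) z_mem _ (FreeGroup.of 0) (by rw [pow2]; exact a2_mem) _ theta
    (MonoidHom.id _) (fun _ _ h => h) theta_iota
  · intro h
    have := Equiv.congr_fun h 0
    simp only [theta, FreeGroup.lift_apply_of] at this
    exact tau_comm this
  · intro c hc
    rw [FreeGroup.lift_mk] at hc
    revert c
    decide
  · intro h
    have := Equiv.congr_fun h 0
    revert this
    simp only [sig, FreeGroup.lift_apply_of]
    decide +kernel
end RelMod.GL23
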