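import Mathlib

/-!
# Flows on a regular permutation representation and the relation module (Magnus embedding)

`P x` is the permutation `v ↦ v · x` (right multiplication by the generator `x`).
-/

namespace RelMod

universe u v

variable {X : Type u} {V : Type v} (P : X → Equiv.Perm V)

/-- The homomorphism `u ↦ (v ↦ v · u⁻¹)`. -/
def sig : FreeGroup X →* Equiv.Perm V := FreeGroup.lift (fun x => (P x)⁻¹)

/-- The end point of the path starting at `v` and reading `u`. -/
def endp (v : V) (u : FreeGroup X) : V := (sig P u)⁻¹ v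

@[simp] theorem endp_one (v : V) : endp P v 1 = v := by
  simp [endp]

theorem endp_mul (v : V) (u w : FreeGroup X) : endp P v (u * w) = endp P (endp P v u) w := by
  simp [endp]

@[simp] theorem endp_of (v : V) (x : X) : endp P v (FreeGroup.of x) = P x v := by
  simp [endp, sig]

@[simp] theorem endp_inv_of (v : V) (x : X) : endp P v (FreeGroup.of x)⁻¹ = (P x)⁻¹ v := by
  simp [endp, sig]

theorem mem_ker_iff (u : FreeGroup X) : u ∈ (sig P).ker ↔ ∀ v, endp P v u = v := by
  rw [MonoidHom.mem_ker]
  constructor
  · intro h v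
    simp [endp, h]
  · intro h
    rw [← inv_eq_one]
    exact Equiv.ext h

theorem endp_of_mem_ker {u : FreeGroup X} (hu : u ∈ (sig P).ker) (v : V) : endp P v u = v :=
  (mem_ker_iff P u).1 hu v

/-- The action of permutations on functions. -/
def shiftV (A : Type*) [AddCommGroup A] : Equiv.Perm V →* MulAut (Multiplicative (V → A)) where
  toFun g :=
    { toFun := fun f => Multiplicative.ofAdd (fun v => Multiplicative.toAdd f (g⁻¹ v))
      invFun := fun f => Multiplicative.ofAdd (fun v => Multiplicative.toAdd f (g v))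
      left_inv := fun f => by
        apply Multiplicative.toAdd.injective
        funext v
        simp
      right_inv := fun f => by
        apply Multiplicative.toAdd.injective
        funext v
        simp
      map_mul' := fun f f' => rfl }
  map_one' := by
    ext f
    rfl
  map_mul' g h := by
    ext f
    rfl

section

variable [DecidableEq V] [DecidableEq X]

/-- The Magnus homomorphism. -/
def magnusV : FreeGroup X →* Multiplicative (V → (V × X → ℤ)) ⋊[shiftV (V × X → ℤ)] Equiv.Perm V :=
  FreeGroup.lift (fun x => ⟨Multiplicative.ofAdd (fun v => Pi.single (v, x) 1), (P x)⁻¹⟩)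

/-- The flow of the path starting at `v` and reading `u`. -/
def flowV (v : V) (u : FreeGroup X) : V × X → ℤ := Multiplicative.toAdd (magnusV P u).left v

theorem magnusV_right (u : FreeGroup X) : (magnusV P u).right = sig P u := by
  have : (SemidirectProduct.rightHom).comp (magnusV P) = sig P := by
    apply FreeGroup.ext_hom
    intro x
    simp [magnusV, sig]
  exact DFunLike.congr_fun this u

@[simp] theorem flowV_one (v : V) : flowV P v 1 = 0 := by
  simp [flowV]

theorem flowV_mul (v : V) (u w : FreeGroup X) :
    flowV P v (u * w) = flowV P v u + flowV P (endp P v u) w := by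
  have h : (magnusV P (u * w)).left
      = (magnusV P u).left * shiftV _ (magnusV P u).right (magnusV P w).left := by
    rw [map_mul (magnusV P)]
    rfl
  rw [magnusV_right] at h
  exact congrFun (congrArg Multiplicative.toAdd h) v

theorem flowV_of (v : V) (x : X) : flowV P v (FreeGroup.of x) = Pi.single (v, x) 1 := by
  simp [flowV, magnusV]

theorem flowV_inv (v : V) (u : FreeGroup X) :
    flowV P v u⁻¹ = - flowV P (endp P v u⁻¹) u := by
  have h := flowV_mul P v u⁻¹ u
  rw [inv_mul_cancel, flowV_one] at h
  exact eq_neg_of_add_eq_zero_left h.symm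

/-- A regular (based) permutation representation. -/
structure IsRegular (v0 : V) : Prop where
  trans : ∀ v, ∃ u, endp P v0 u = v
  stab : ∀ u, endp P v0 u = v0 → u ∈ (sig P).ker

/-- Elements of the kernel with zero flow lie in the commutator subgroup of the kernel. -/
theorem mem_commutator_of_flowV_eq_zero [Fintype V] [Fintype X] {v0 : V} (hr : IsRegular P v0)
    (u : FreeGroup X) (hu : u ∈ (sig P).ker) (h : flowV P v0 u = 0) :
    u ∈ ⁅(sig P).ker, (sig P).ker⁆ := by
  classical
  choose s hs using hr.trans
  have hm : ∀ (k : V) (w : FreeGroup X), s k * w * (s (endp P k w))⁻¹ ∈ (sig P).ker := by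
    intro k w
    apply hr.stab
    rw [endp_mul, endp_mul, hs]
    have := endp_mul P v0 (s (endp P k w)) (s (endp P k w))⁻¹
    rw [mul_inv_cancel, endp_one, hs] at this
    exact this.symm
  let ψ : V → FreeGroup X → Additive (Abelianization (sig P).ker) := fun k w =>
    Additive.ofMul (Abelianization.of ⟨_, hm k w⟩)
  have hψmul : ∀ k w w', ψ k (w * w') = ψ k w + ψ (endp P k w) w' := by
    intro k w w'
    change Additive.ofMul _ = Additive.ofMul _ + Additive.ofMul _
    rw [← ofMul_mul, ← map_mul]
    congr 2
    apply Subtype.ext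
    simp only [Subgroup.coe_mul, endp_mul]
    group
  have hψone : ∀ k, ψ k 1 = 0 := by
    intro k
    have := hψmul k 1 1
    rw [endp_one, mul_one] at this
    exact left_eq_add.mp this
  have key : ∀ (w : FreeGroup X) (k : V),
      ψ k w = ∑ e : V × X, (flowV P k w) e • ψ e.1 (FreeGroup.of e.2) := by
    intro w
    induction w using FreeGroup.induction_on with
    | C1 =>
      intro k
      rw [hψone]
      simp
    | of x =>
      intro k
      rw [flowV_of, Finset.sum_eq_single (k, x)]
      · simp
      · intro b _ hb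
        rw [Pi.single_eq_of_ne hb, zero_smul]
      · intro hb
        exact absurd (Finset.mem_univ _) hb
    | inv_of x ih =>
      intro k
      have h1 := hψmul k (FreeGroup.of x)⁻¹ (FreeGroup.of x)
      rw [inv_mul_cancel, hψone, ih] at h1
      rw [eq_neg_of_add_eq_zero_left h1.symm, ← Finset.sum_neg_distrib]
      apply Finset.sum_congr rfl
      intro e _
      rw [flowV_inv, Pi.neg_apply, neg_smul]
    | mul w w' hw hw' =>
      intro k
      rw [hψmul, hw, hw', flowV_mul, ← Finset.sum_add_distrib]
      apply Finset.sum_congr rfl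
      intro e _
      rw [Pi.add_apply, add_smul]
  have h1 : ψ v0 u = 0 := by
    rw [key, h]
    simp
  have hs1 : s v0 ∈ (sig P).ker := hr.stab _ (hs v0)
  have h2 : Abelianization.of (⟨u, hu⟩ : (sig P).ker) = 1 := by
    have h3 : Abelianization.of (⟨_, hm v0 u⟩ : (sig P).ker) = 1 := h1
    have h4 : (⟨_, hm v0 u⟩ : (sig P).ker) = ⟨s v0, hs1⟩ * ⟨u, hu⟩ * ⟨s v0, hs1⟩⁻¹ := by
      apply Subtype.ext
      have : endp P v0 u = v0 := endp_of_mem_ker P hu v0
      simp [this]
    rw [h4, map_mul, map_mul, map_inv, mul_comm, inv_mul_cancel_left] at h3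
    exact h3
  have h5 : (⟨u, hu⟩ : (sig P).ker) ∈ commutator (sig P).ker := by
    rw [← Abelianization.ker_of]
    exact h2
  have h6 := Subgroup.map_subtype_commutator (sig P).ker
  rw [← h6]
  exact ⟨⟨u, hu⟩, h5, rfl⟩

/-- The span of the flows of the elements of `S` from all vertices. -/
def spanV (S : Set (FreeGroup X)) : AddSubgroup (V × X → ℤ) :=
  AddSubgroup.closure {f | ∃ s ∈ S, ∃ v : V, f = flowV P v s}

theorem flowV_mem_span {S : Set (FreeGroup X)} {s : FreeGroup X} (hs : s ∈ S) (v : V) :
    flowV P v s ∈ spanV P S :=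
  AddSubgroup.subset_closure ⟨s, hs, v, rfl⟩

theorem spanV_mono {S T : Set (FreeGroup X)} (h : S ⊆ T) : spanV P S ≤ spanV P T := by
  apply AddSubgroup.closure_mono
  rintro f ⟨s, hs, v, rfl⟩
  exact ⟨s, h hs, v, rfl⟩

theorem flowV_conj {v : V} {s t : FreeGroup X} (hs : s ∈ (sig P).ker) :
    flowV P v (t * s * t⁻¹) = flowV P (endp P v t) s := by
  rw [flowV_mul, flowV_mul, endp_mul, endp_of_mem_ker P hs, flowV_inv, ← endp_mul,
    mul_inv_cancel, endp_one]
  abel

/-- Every element of the span of flows is the flow of an element of the normal closure. -/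
theorem exists_of_mem_spanV {v0 : V} (hr : IsRegular P v0) {S : Set (FreeGroup X)}
    (hS : S ⊆ (sig P).ker) {f : V × X → ℤ} (hf : f ∈ spanV P S) :
    ∃ n ∈ Subgroup.normalClosure S, flowV P v0 n = f := by
  have hn : Subgroup.normalClosure S ≤ (sig P).ker := Subgroup.normalClosure_le_normal hS
  induction hf using AddSubgroup.closure_induction with
  | mem f hf =>
    obtain ⟨s, hs, v, rfl⟩ := hf
    obtain ⟨t, rfl⟩ := hr.trans v
    refine ⟨t * s * t⁻¹, Subgroup.Normal.conj_mem Subgroup.normalClosure_normal _
      (Subgroup.subset_normalClosure hs) _, ?_⟩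
    exact flowV_conj P (hS hs)
  | zero => exact ⟨1, one_mem _, flowV_one P v0⟩
  | add f f' _ _ hf hf' =>
    obtain ⟨n, hn1, rfl⟩ := hf
    obtain ⟨n', hn2, rfl⟩ := hf'
    refine ⟨n * n', mul_mem hn1 hn2, ?_⟩
    rw [flowV_mul, endp_of_mem_ker P (hn hn1)]
  | neg f _ hf =>
    obtain ⟨n, hn1, rfl⟩ := hf
    refine ⟨n⁻¹, inv_mem hn1, ?_⟩
    rw [flowV_inv, endp_of_mem_ker P (inv_mem (hn hn1))]

/-- Membership in `⟪S⟫[R,R]` can be read off from the flow. -/
theorem mem_of_flowV_mem_span [Fintype V] [Fintype X] {v0 : V} (hr : IsRegular P v0)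
    {S : Set (FreeGroup X)} (hS : S ⊆ (sig P).ker) (u : FreeGroup X) (hu : u ∈ (sig P).ker)
    (h : flowV P v0 u ∈ spanV P S) :
    u ∈ Subgroup.normalClosure S ⊔ ⁅(sig P).ker, (sig P).ker⁆ := by
  obtain ⟨n, hn, hnf⟩ := exists_of_mem_spanV P hr hS h
  have hn' : n ∈ (sig P).ker := Subgroup.normalClosure_le_normal hS hn
  have h1 : u * n⁻¹ ∈ ⁅(sig P).ker, (sig P).ker⁆ := by
    apply mem_commutator_of_flowV_eq_zero P hr _ (mul_mem hu (inv_mem hn'))
    rw [flowV_mul, flowV_inv, endp_of_mem_ker P hu, endp_of_mem_ker P (inv_mem hn'), hnf,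
      add_neg_cancel]
  have h4 : u = u * n⁻¹ * n := by group
  rw [h4]
  exact mul_mem (Subgroup.mem_sup_right h1) (Subgroup.mem_sup_left hn)

/-- Conversely the flows of the elements of `⟪S⟫[R,R]` lie in the span. -/
theorem flowV_mem_of_mem {S : Set (FreeGroup X)} (hS : S ⊆ (sig P).ker) {u : FreeGroup X}
    (hu : u ∈ Subgroup.normalClosure S ⊔ ⁅(sig P).ker, (sig P).ker⁆) :
    u ∈ (sig P).ker ∧ ∀ v, flowV P v u ∈ spanV P S := by
  let T : Subgroup (FreeGroup X) :=
    { carrier := {u | u ∈ (sig P).ker ∧ ∀ v, flowV P v u ∈ spanV P S}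
      one_mem' := ⟨one_mem _, fun v => by
        rw [flowV_one]
        exact zero_mem _⟩
      mul_mem' := by
        rintro a b ⟨ha, ha'⟩ ⟨hb, hb'⟩
        refine ⟨mul_mem ha hb, fun v => ?_⟩
        rw [flowV_mul]
        exact add_mem (ha' v) (hb' _)
      inv_mem' := by
        rintro a ⟨ha, ha'⟩
        refine ⟨inv_mem ha, fun v => ?_⟩
        rw [flowV_inv]
        exact neg_mem (ha' _) }
  have hT : T.Normal := by
    constructor
    rintro a ⟨ha, ha'⟩ t
    refine ⟨Subgroup.Normal.conj_mem inferInstance _ ha t, fun v => ?_⟩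
    rw [flowV_conj P ha]
    exact ha' _
  have h1 : Subgroup.normalClosure S ≤ T := by
    apply Subgroup.normalClosure_le_normal
    intro s hs
    exact ⟨hS hs, fun v => flowV_mem_span P hs v⟩
  have h2 : ⁅(sig P).ker, (sig P).ker⁆ ≤ T := by
    rw [Subgroup.commutator_le]
    intro a ha b hb
    refine ⟨Subgroup.commutator_le_left _ _ (Subgroup.commutator_mem_commutator ha hb),
      fun v => ?_⟩
    have h3 : flowV P v (a * b * a⁻¹ * b⁻¹) = 0 := by
      rw [flowV_mul, flowV_mul, flowV_mul, flowV_inv, flowV_inv]
      simp only [endp_mul, endp_of_mem_ker P ha, endp_of_mem_ker P hb,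
        endp_of_mem_ker P (inv_mem ha), endp_of_mem_ker P (inv_mem hb)]
      abel
    change flowV P v (a * b * a⁻¹ * b⁻¹) ∈ _
    rw [h3]
    exact zero_mem _
  exact (sup_le h1 h2) hu

/-! ### Paths given by lists of letters -/

omit [DecidableEq V] [DecidableEq X] in
/-- The end point of the path reading a list of letters. -/
def lend : V → List (X × Bool) → V
  | v, [] => v
  | v, (x, true) :: L => lend (P x v) L
  | v, (x, false) :: L => lend ((P x).symm v) L

/-- The flow of the path reading a list of letters, at an edge. -/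
def cnt : V → List (X × Bool) → V × X → ℤ
  | _, [], _ => 0
  | v, (x, true) :: L, e => (if e = (v, x) then 1 else 0) + cnt (P x v) L e
  | v, (x, false) :: L, e => cnt ((P x).symm v) L e - (if e = ((P x).symm v, x) then 1 else 0)

omit [DecidableEq V] [DecidableEq X] in
theorem mk_cons_true (x : X) (L : List (X × Bool)) :
    FreeGroup.mk ((x, true) :: L) = FreeGroup.of x * FreeGroup.mk L := by
  rw [FreeGroup.of, FreeGroup.mul_mk]
  rfl

omit [DecidableEq V] [DecidableEq X] in
theorem mk_cons_false (x : X) (L : List (X × Bool)) :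
    FreeGroup.mk ((x, false) :: L) = (FreeGroup.of x)⁻¹ * FreeGroup.mk L := by
  rw [FreeGroup.of, FreeGroup.inv_mk, FreeGroup.mul_mk]
  rfl

omit [DecidableEq V] [DecidableEq X] in
theorem endp_mk (L : List (X × Bool)) : ∀ v, endp P v (FreeGroup.mk L) = lend P v L := by
  induction L with
  | nil => intro v; exact endp_one P v
  | cons l L ih =>
    intro v
    obtain ⟨x, b⟩ := l
    cases b
    · rw [mk_cons_false, endp_mul, endp_inv_of, ih]
      rfl
    · rw [mk_cons_true, endp_mul, endp_of, ih]
      rfl

theorem flowV_mk (L : List (X × Bool)) :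
    ∀ v e, flowV P v (FreeGroup.mk L) e = cnt P v L e := by
  induction L with
  | nil =>
    intro v e
    have : (FreeGroup.mk [] : FreeGroup X) = 1 := rfl
    rw [this, flowV_one]
    rfl
  | cons l L ih =>
    intro v e
    obtain ⟨x, b⟩ := l
    cases b
    · rw [mk_cons_false, flowV_mul, endp_inv_of, flowV_inv, endp_inv_of, flowV_of]
      simp only [Pi.add_apply, Pi.neg_apply, Pi.single_apply, cnt, ih]
      rw [add_comm]
      rfl
    · rw [mk_cons_true, flowV_mul, endp_of, flowV_of]
      simp only [Pi.add_apply, Pi.single_apply, cnt, ih]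

/-- Integer combination of the flows of the word `L` from several vertices, at an edge. -/
def csum (L : List (X × Bool)) (e : V × X) : List (V × ℤ) → ℤ
  | [] => 0
  | (v, c) :: C => c * cnt P v L e + csum L e C

theorem csum_mem {S : Set (FreeGroup X)} {L : List (X × Bool)} (hL : FreeGroup.mk L ∈ S)
    (C : List (V × ℤ)) : (fun e => csum P L e C) ∈ spanV P S := by
  induction C with
  | nil => exact zero_mem _
  | cons p C ih =>
    obtain ⟨v, c⟩ := p
    have h1 : (fun e => csum P L e ((v, c) :: C))
        = c • flowV P v (FreeGroup.mk L) + fun e => csum P L e C := by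
      funext e
      simp only [csum, Pi.add_apply, Pi.smul_apply, flowV_mk, smul_eq_mul]
    rw [h1]
    exact add_mem (AddSubgroup.zsmul_mem _ (flowV_mem_span P hL v) c) ih

/-! ### Collapse -/

/-- The defect of an edge with respect to a potential. -/
def defect (p : V → (V × X → ℤ)) (e : V × X) : V × X → ℤ :=
  p e.1 + Pi.single e 1 - p (P e.2 e.1)

omit [DecidableEq V] [DecidableEq X] in
/-- The edges on a path. -/
def ledges : V → List (X × Bool) → List (V × X)
  | _, [] => []
  | v, (x, true) :: L => (v, x) :: ledges (P x v) L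
  | v, (x, false) :: L => ((P x).symm v, x) :: ledges ((P x).symm v) L

theorem path_mem (p : V → (V × X → ℤ)) (Z : AddSubgroup (V × X → ℤ)) (L : List (X × Bool)) :
    ∀ v, (∀ e ∈ ledges P v L, defect P p e ∈ Z) →
      p v + flowV P v (FreeGroup.mk L) - p (lend P v L) ∈ Z := by
  induction L with
  | nil =>
    intro v _
    have : (FreeGroup.mk [] : FreeGroup X) = 1 := rfl
    rw [this, flowV_one]
    simp [lend, zero_mem]
  | cons l L ih =>
    intro v h
    obtain ⟨x, b⟩ := l
    cases b
    · have h1 := ih _ (fun e he => h e (List.mem_cons_of_mem _ he))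
      have h2 := h _ List.mem_cons_self
      rw [mk_cons_false, flowV_mul, endp_inv_of, flowV_inv, endp_inv_of, flowV_of]
      have h3 : p v + (-Pi.single ((P x)⁻¹ v, x) 1 + flowV P ((P x)⁻¹ v) (FreeGroup.mk L))
          - p (lend P v ((x, false) :: L)) =
          (p ((P x).symm v) + flowV P ((P x).symm v) (FreeGroup.mk L)
            - p (lend P ((P x).symm v) L)) - defect P p ((P x).symm v, x) := by
        simp only [defect, lend, Equiv.apply_symm_apply, Equiv.Perm.inv_def]
        abel
      rw [h3]
      exact sub_mem h1 h2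
    · have h1 := ih _ (fun e he => h e (List.mem_cons_of_mem _ he))
      have h2 := h _ List.mem_cons_self
      rw [mk_cons_true, flowV_mul, endp_of, flowV_of]
      have h3 : p v + (Pi.single (v, x) 1 + flowV P (P x v) (FreeGroup.mk L))
          - p (lend P v ((x, true) :: L)) =
          (p (P x v) + flowV P (P x v) (FreeGroup.mk L)
            - p (lend P (P x v) L)) + defect P p (v, x) := by
        simp only [defect, lend]
        abel
      rw [h3]
      exact add_mem h1 h2

/-- The first edge of a closed path is good if the other ones are. -/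
theorem first_edge_mem (p : V → (V × X → ℤ)) (Z : AddSubgroup (V × X → ℤ)) (v : V) (x : X)
    (b : Bool) (L : List (X × Bool)) (hZ : flowV P v (FreeGroup.mk ((x, b) :: L)) ∈ Z)
    (hcl : lend P v ((x, b) :: L) = v)
    (h : ∀ e ∈ (ledges P v ((x, b) :: L)).tail, defect P p e ∈ Z) :
    ∀ e ∈ (ledges P v ((x, b) :: L)).head?, defect P p e ∈ Z := by
  cases b
  · intro e he
    have he' : e = ((P x).symm v, x) := by
      simpa [ledges] using he.symm
    subst he'
    have h1 := path_mem P p Z L ((P x).symm v) h
    have h2 : lend P ((P x).symm v) L = v := hcl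
    rw [h2] at h1
    rw [mk_cons_false, flowV_mul, endp_inv_of, flowV_inv, endp_inv_of, flowV_of] at hZ
    have h3 : defect P p ((P x).symm v, x) =
        (p ((P x).symm v) + flowV P ((P x).symm v) (FreeGroup.mk L) - p v) -
        (-Pi.single ((P x)⁻¹ v, x) 1 + flowV P ((P x)⁻¹ v) (FreeGroup.mk L)) := by
      simp only [defect, Equiv.apply_symm_apply, Equiv.Perm.inv_def]
      abel
    rw [h3]
    exact sub_mem h1 hZ
  · intro e he
    have he' : e = (v, x) := by
      simpa [ledges] using he.symm
    subst he'
    have h1 := path_mem P p Z L (P x v) h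
    have h2 : lend P (P x v) L = v := hcl
    rw [h2] at h1
    rw [mk_cons_true, flowV_mul, endp_of, flowV_of] at hZ
    have h3 : defect P p (v, x) =
        (Pi.single (v, x) 1 + flowV P (P x v) (FreeGroup.mk L)) -
        (p (P x v) + flowV P (P x v) (FreeGroup.mk L) - p v) := by
      simp only [defect]
      abel
    rw [h3]
    exact sub_mem hZ h1

/-- If all defects lie in `Z`, then so do the flows of all elements of the kernel. -/
theorem flow_mem_of_defects {v0 : V} (p : V → (V × X → ℤ)) (Z : AddSubgroup (V × X → ℤ))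
    (h : ∀ e, defect P p e ∈ Z) (u : FreeGroup X) (hu : u ∈ (sig P).ker) :
    flowV P v0 u ∈ Z := by
  have h1 := path_mem P p Z u.toWord v0 (fun e _ => h e)
  rw [FreeGroup.mk_toWord] at h1
  have h2 : lend P v0 u.toWord = v0 := by
    rw [← endp_mk, FreeGroup.mk_toWord]
    exact endp_of_mem_ker P hu v0
  rw [h2] at h1
  simpa using h1

end

end RelMod
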