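import Pool.Agent.Lib.MP_8396f3_al.Basic

/-!
# Adjoining roots, and relators which are powers of a generator
-/

universe u

namespace OneRel

open FreeGroup (of mk mul_mk one_eq_mk)

variable {X : Type u}

/-! ## Adjoining a root -/

section root

variable {G : Type u} [Group G]

/-- left multiplication on the first coordinate -/
def lmul (n : ℕ) : G →* Equiv.Perm (G × ZMod n) where
  toFun h :=
    { toFun := fun x => (h * x.1, x.2)
      invFun := fun x => (h⁻¹ * x.1, x.2)
      left_inv := fun x => by simp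
      right_inv := fun x => by simp }
  map_one' := by ext x <;> simp
  map_mul' a b := by
    ext x
    · simp [mul_assoc]
    · simp

theorem lmul_injective (n : ℕ) : Function.Injective (lmul n : G →* Equiv.Perm (G × ZMod n)) := by
  intro a b h
  have := congrArg (fun f : Equiv.Perm (G × ZMod n) => (f (1, 0)).1) h
  simpa [lmul] using this

/-- the root: `(g, i) ↦ (g, i + 1)` for `i ≠ 0` and `(t g, 1)` for `i = 0`. -/
def rootPerm (n : ℕ) (t : G) : Equiv.Perm (G × ZMod n) where
  toFun := fun x => (if x.2 = 0 then t * x.1 else x.1, x.2 + 1)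
  invFun := fun x => (if x.2 - 1 = 0 then t⁻¹ * x.1 else x.1, x.2 - 1)
  left_inv := fun x => by
    apply Prod.ext
    · simp only [add_sub_cancel_right]
      split_ifs <;> simp
    · simp
  right_inv := fun x => by
    apply Prod.ext
    · simp only
      split_ifs <;> simp
    · simp

theorem rootPerm_pow (n : ℕ) (t : G) (k : ℕ) (g : G) (i : ZMod n) :
    (rootPerm n t ^ k) (g, i) =
      (t ^ ((Finset.range k).filter (fun j : ℕ => i + (j : ZMod n) = 0)).card * g, i + k) := by
  induction k with
  | zero => simp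
  | succ k ih =>
    rw [pow_succ', Equiv.Perm.mul_apply, ih]
    simp only [rootPerm, Equiv.coe_fn_mk]
    apply Prod.ext
    · simp only
      rw [Finset.range_add_one, Finset.filter_insert]
      split_ifs with h
      · rw [Finset.card_insert_of_notMem (by simp), pow_succ', mul_assoc]
      · rfl
    · simp only
      push_cast
      ring

theorem rootPerm_pow_n (n : ℕ) [NeZero n] (t : G) : rootPerm n t ^ n = lmul n t := by
  ext x
  · rw [show x = (x.1, x.2) from rfl, rootPerm_pow]
    have : ((Finset.range n).filter (fun j => x.2 + ((j : ℕ) : ZMod n) = 0)).card = 1 := by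
      rw [Finset.card_eq_one]
      refine ⟨(-x.2).val, ?_⟩
      ext j
      simp only [Finset.mem_filter, Finset.mem_range, Finset.mem_singleton]
      constructor
      · rintro ⟨h1, h2⟩
        have h3 : ((j : ℕ) : ZMod n) = -x.2 := by
          rw [eq_neg_iff_add_eq_zero, add_comm]; exact h2
        rw [← h3, ZMod.val_cast_of_lt h1]
      · rintro rfl
        refine ⟨ZMod.val_lt _, ?_⟩
        simp
    rw [this]
    simp [lmul]
  · rw [show x = (x.1, x.2) from rfl, rootPerm_pow]
    simp [lmul]

/-- Every element of a group has a root in a bigger group. -/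
theorem exists_root (t : G) (α : ℤ) (hα : α ≠ 0) :
    ∃ (P : Type u) (_ : Group P) (ι : G →* P) (y : P), Function.Injective ι ∧ y ^ α = ι t := by
  have hn : NeZero α.natAbs := ⟨Int.natAbs_ne_zero.2 hα⟩
  rcases le_total 0 α with h | h
  · refine ⟨Equiv.Perm (G × ZMod α.natAbs), inferInstance, lmul α.natAbs,
      rootPerm α.natAbs t, lmul_injective _, ?_⟩
    have h1 : α = (α.natAbs : ℤ) := by omega
    have h2 := rootPerm_pow_n α.natAbs t
    rw [← h2, ← zpow_natCast, ← h1]
  · refine ⟨Equiv.Perm (G × ZMod α.natAbs), inferInstance, lmul α.natAbs,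
      rootPerm α.natAbs t⁻¹, lmul_injective _, ?_⟩
    have h1 : α = -(α.natAbs : ℤ) := by omega
    have h2 := rootPerm_pow_n α.natAbs t⁻¹
    have h3 : ∀ y : Equiv.Perm (G × ZMod α.natAbs), y ^ α = (y ^ α.natAbs)⁻¹ := by
      intro y
      calc y ^ α = y ^ (-(α.natAbs : ℤ)) := by rw [← h1]
        _ = (y ^ α.natAbs)⁻¹ := by rw [zpow_neg, zpow_natCast]
    rw [h3, h2, map_inv, inv_inv]

end root

/-- The embedding lemma: adjoining a root of `t` does not collapse anything. -/
theorem embedding {t : X} (ψ : FreeGroup X →* FreeGroup X) (α : ℤ) (hα : α ≠ 0) (k : X → ℤ)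
    (h1 : ψ (of t) = of t ^ α) (h2 : ∀ x, x ≠ t → ψ (of x) = of x * of t ^ k x)
    (r g : FreeGroup X) (hg : ψ g ∈ Subgroup.normalClosure {ψ r}) :
    g ∈ Subgroup.normalClosure {r} := by
  classical
  set π : FreeGroup X →* PresentedGroup {r} := PresentedGroup.mk {r} with hπ
  obtain ⟨P, _, ι, y, hι, hy⟩ := exists_root (π (of t)) α hα
  set Λ : FreeGroup X →* P := FreeGroup.lift (fun x => if x = t then y else
    ι (π (of x)) * y ^ (-k x)) with hΛ
  have hcomp : ∀ w, Λ (ψ w) = ι (π w) := by
    intro w
    have : Λ.comp ψ = ι.comp π := by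
      ext x
      simp only [MonoidHom.comp_apply]
      by_cases hx : x = t
      · subst hx
        rw [h1, map_zpow, ← hy]
        congr 1
        simp [hΛ]
      · rw [h2 x hx, map_mul, map_zpow]
        have e1 : Λ (of x) = ι (π (of x)) * y ^ (-k x) := by simp [hΛ, hx]
        have e2 : Λ (of t) = y := by simp [hΛ]
        rw [e1, e2]
        group
    exact DFunLike.congr_fun this w
  have h3 : Λ (ψ r) = 1 := by
    rw [hcomp]
    have : π r = 1 := PresentedGroup.one_of_mem rfl
    rw [this, map_one]
  have h4 := hom_eq_one_of_mem Λ h3 hg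
  rw [hcomp] at h4
  have h5 : π g = 1 := hι (by rw [h4, map_one])
  exact PresentedGroup.mk_eq_one_iff.1 h5

/-- `ψ` maps the normal closure of `r` into the normal closure of `ψ r`. -/
theorem map_normalClosure {Y : Type u} (ψ : FreeGroup X →* FreeGroup Y) {r g : FreeGroup X}
    (hg : g ∈ Subgroup.normalClosure {r}) : ψ g ∈ Subgroup.normalClosure {ψ r} := by
  have h1 : ((PresentedGroup.mk {ψ r}).comp ψ) r = 1 := PresentedGroup.one_of_mem rfl
  have h2 := hom_eq_one_of_mem ((PresentedGroup.mk {ψ r}).comp ψ) h1 hg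
  exact PresentedGroup.mk_eq_one_iff.1 h2

/-- Injectivity of `t ↦ t ^ α`. -/
theorem pow_injective {t : X} (ψ : FreeGroup X →* FreeGroup X) (α : ℤ) (hα : α ≠ 0)
    (h1 : ψ (of t) = of t ^ α) (h2 : ∀ x, x ≠ t → ψ (of x) = of x) (g : FreeGroup X)
    (hg : ψ g = 1) : g = 1 := by
  have h3 := embedding ψ α hα (fun _ => 0) h1 (fun x hx => by rw [h2 x hx]; simp) 1 g
    (by rw [hg]; exact one_mem _)
  have h4 : Subgroup.normalClosure {(1 : FreeGroup X)} = ⊥ := by
    rw [eq_bot_iff]
    apply Subgroup.normalClosure_le_normal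
    intro x hx
    rw [Set.mem_singleton_iff] at hx
    rw [hx]
    exact one_mem _
  rw [h4, Subgroup.mem_bot] at h3
  exact h3

/-! ## The relator is a power of a generator -/

section power

variable (n : ℕ) (Y : Type u)

/-- the action of `ℤ/n` on the free group on `Y × ℤ/n` -/
def cycAct : Multiplicative (ZMod n) →* MulAut (FreeGroup (Y × ZMod n)) where
  toFun i := FreeGroup.freeGroupCongr
    ((Equiv.refl Y).prodCongr (Equiv.addRight (Multiplicative.toAdd i)))
  map_one' := by
    ext x
    simp [FreeGroup.freeGroupCongr]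
  map_mul' i j := by
    apply MulEquiv.toMonoidHom_injective
    ext x
    simp only [MulEquiv.coe_toMonoidHom, MulAut.mul_apply]
    simp only [FreeGroup.freeGroupCongr, MulEquiv.coe_mk, Equiv.coe_fn_mk, FreeGroup.map.of]
    congr 1
    apply Prod.ext
    · rfl
    · simp [add_comm, add_left_comm]

variable {n Y}

theorem cycAct_of (i : Multiplicative (ZMod n)) (c : Y × ZMod n) :
    cycAct n Y i (of c) = of (c.1, c.2 + Multiplicative.toAdd i) := by
  simp only [cycAct, FreeGroup.freeGroupCongr, MonoidHom.coe_mk, OneHom.coe_mk, MulEquiv.coe_mk,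
    Equiv.coe_fn_mk, FreeGroup.map.of]
  rfl

end power

theorem freeGroup_torsion {Z : Type u} {p : ℕ} (hp : p ≠ 0) (g : FreeGroup Z) (h : g ^ p = 1) :
    g = 1 := by
  exact (pow_eq_one_iff_left hp).1 h

theorem tp_pow {a : X} {n : ℕ} (hn : n ≠ 0) {p : ℕ} (hp : p.Prime) (hcop : Nat.Coprime p n) :
    TP p (of a ^ n : FreeGroup X) := by
  classical
  have : NeZero n := ⟨hn⟩
  set Y := {x : X // x ≠ a} with hY
  set r : FreeGroup X := of a ^ n with hr
  set π : FreeGroup X →* PresentedGroup {r} := PresentedGroup.mk {r} with hπ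
  have hπr : π (of a) ^ n = 1 := by
    rw [← map_pow]
    exact PresentedGroup.one_of_mem rfl
  set Λ : FreeGroup X →* (FreeGroup (Y × ZMod n)) ⋊[cycAct n Y] (Multiplicative (ZMod n)) :=
    FreeGroup.lift (fun x => if h : x = a then SemidirectProduct.inr (Multiplicative.ofAdd 1)
      else SemidirectProduct.inl (of ((⟨x, h⟩ : Y), (0 : ZMod n)))) with hΛ
  have hΛa : Λ (of a) = SemidirectProduct.inr (Multiplicative.ofAdd 1) := by simp [hΛ]
  have hΛx : ∀ (x : X) (h : x ≠ a), Λ (of x) =
      SemidirectProduct.inl (of ((⟨x, h⟩ : Y), (0 : ZMod n))) := by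
    intro x h
    simp [hΛ, h]
  have hΛr : Λ r = 1 := by
    rw [hr, map_pow, hΛa, ← map_pow, ← ofAdd_nsmul]
    simp
  -- the map back
  set fg0 : ZMod n →+ Additive (PresentedGroup {r}) :=
    ZMod.lift n ⟨zmultiplesHom (Additive (PresentedGroup {r})) (Additive.ofMul (π (of a))), by
      rw [zmultiplesHom_apply]
      rw [natCast_zsmul, ← ofMul_pow, hπr, ofMul_one]⟩ with hfg0
  set fg : Multiplicative (ZMod n) →* PresentedGroup {r} :=
    AddMonoidHom.toMultiplicativeLeft fg0 with hfg
  have hfg1 : fg (Multiplicative.ofAdd 1) = π (of a) := by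
    have h1 : fg0 1 = Additive.ofMul (π (of a)) := by
      have := ZMod.lift_coe n ⟨zmultiplesHom (Additive (PresentedGroup {r}))
        (Additive.ofMul (π (of a))), by
        rw [zmultiplesHom_apply]
        rw [natCast_zsmul, ← ofMul_pow, hπr, ofMul_one]⟩ 1
      rw [Int.cast_one] at this
      rw [hfg0, this]
      simp
    have h2 : fg (Multiplicative.ofAdd 1) = Additive.toMul (fg0 1) := rfl
    rw [h2, h1]
    rfl
  set fn : FreeGroup (Y × ZMod n) →* PresentedGroup {r} :=
    FreeGroup.lift (fun c => fg (Multiplicative.ofAdd c.2) * π (of c.1.1) *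
      (fg (Multiplicative.ofAdd c.2))⁻¹) with hfn
  have hcompat : ∀ i, fn.comp (MulEquiv.toMonoidHom (cycAct n Y i)) =
      (MulEquiv.toMonoidHom (MulAut.conj (fg i))).comp fn := by
    intro i
    ext c
    simp only [MonoidHom.comp_apply, MulEquiv.coe_toMonoidHom, cycAct_of, MulAut.conj_apply]
    rw [hfn, FreeGroup.lift_apply_of, FreeGroup.lift_apply_of]
    have h1 : fg (Multiplicative.ofAdd (c.2 + Multiplicative.toAdd i)) =
        fg i * fg (Multiplicative.ofAdd c.2) := by
      rw [← map_mul, mul_comm]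
      congr 1
    simp only [h1]
    group
  set Ξ : (FreeGroup (Y × ZMod n)) ⋊[cycAct n Y] (Multiplicative (ZMod n)) →*
      PresentedGroup {r} := SemidirectProduct.lift fn fg hcompat with hΞ
  have hcomp : ∀ g, Ξ (Λ g) = π g := by
    intro g
    have : Ξ.comp Λ = π := by
      ext x
      simp only [MonoidHom.comp_apply]
      by_cases hx : x = a
      · subst hx
        rw [hΛa, hΞ, SemidirectProduct.lift_inr, hfg1]
      · rw [hΛx x hx, hΞ, SemidirectProduct.lift_inl, hfn, FreeGroup.lift_apply_of]
        simp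
    exact DFunLike.congr_fun this g
  intro g hg
  have h1 : (Λ g) ^ p = 1 := by
    rw [← map_pow]
    exact hom_eq_one_of_mem Λ hΛr hg
  have h2 : (Λ g).right = 1 := by
    have h3 : ((Λ g).right) ^ p = 1 := by
      have := congrArg SemidirectProduct.rightHom h1
      rw [map_pow, map_one] at this
      exact this
    have h4 : ((Λ g).right) ^ n = 1 := by
      have h5 : n • Multiplicative.toAdd (Λ g).right = 0 := by simp
      exact h5
    have h6 : ((Λ g).right) ^ (Nat.gcd p n) = 1 := pow_gcd_eq_one.2 ⟨h3, h4⟩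
    rwa [hcop, pow_one] at h6
  have h3 : Λ g = SemidirectProduct.inl (Λ g).left := by
    apply SemidirectProduct.ext
    · rfl
    · rw [h2]; rfl
  have h4 : (Λ g).left = 1 := by
    apply freeGroup_torsion hp.ne_zero
    apply SemidirectProduct.inl_injective (φ := cycAct n Y)
    rw [map_pow, ← h3, h1, map_one]
  have h5 : Λ g = 1 := by rw [h3, h4, map_one]
  have h6 := hcomp g
  rw [h5, map_one] at h6
  exact PresentedGroup.mk_eq_one_iff.1 h6.symm

end OneRel
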