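import Pool.Agent.Lib.MP_8396f3_al.Cover
import Pool.Agent.Lib.MP_8396f3_al.Root

/-!
# Magnus' Freiheitssatz and absence of `p`-torsion in one-relator groups

`freiheitssatz`: if the relator `r` is not conjugate into the subgroup generated by `X \ {z}`,
then `X \ {z}` freely generates a free subgroup of `⟨X | r⟩`.

`no_torsion`: if some homomorphism from the free group to `ℤ/p` does not kill `r`, then
`⟨X | r⟩` has no element of order `p`.
-/

universe u

namespace OneRel

open FreeGroup (of mk mul_mk one_eq_mk)

variable {X : Type u}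

theorem exists_letter {p : ℕ} (L : List (X × Bool)) (ε : FreeGroup X →* Multiplicative (ZMod p))
    (hε : ε (mk L) ≠ 1) :
    ∃ w ∈ L, ¬ (p : ℤ) ∣ Multiplicative.toAdd (ex w.1 (mk L)) := by
  classical
  by_contra hcon
  push Not at hcon
  apply hε
  set S : Finset X := (L.map Prod.fst).toFinset with hS
  set E : X → (FreeGroup X →* Multiplicative (ZMod p)) := fun a =>
    (zpowersHom _ (ε (of a))).comp (ex a) with hE
  have hEb : ∀ b ∈ S, (∏ a ∈ S, E a) (of b) = ε (of b) := by
    intro b hb
    rw [MonoidHom.finsetProd_apply, Finset.prod_eq_single b]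
    · simp [hE, ex_of_self]
    · intro a _ hab
      simp [hE, ex_of_ne hab.symm]
    · intro h
      exact absurd hb h
  have hlist : ∀ K : List (X × Bool), (∀ w ∈ K, w.1 ∈ S) →
      ε (mk K) = (∏ a ∈ S, E a) (mk K) := by
    intro K
    induction K with
    | nil => intro _; rw [mk_nil, map_one, map_one]
    | cons w K ih =>
      intro hK
      rw [mk_cons, map_mul, map_mul, ih (fun w hw => hK w (List.mem_cons_of_mem _ hw))]
      congr 1
      have h1 := hEb w.1 (hK w List.mem_cons_self)
      cases w.2
      · rw [cond_false, map_inv, map_inv, h1]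
      · rw [cond_true, h1]
  rw [hlist L (fun w hw => by
    rw [hS, List.mem_toFinset]; exact List.mem_map_of_mem hw), MonoidHom.finsetProd_apply]
  apply Finset.prod_eq_one
  intro a ha
  rw [hS, List.mem_toFinset, List.mem_map] at ha
  obtain ⟨w, hw, rfl⟩ := ha
  obtain ⟨j, hj⟩ := hcon w hw
  have h1 : E w.1 (mk L) = (ε (of w.1)) ^ (Multiplicative.toAdd (ex w.1 (mk L))) := by
    simp [hE]
  rw [h1, hj, zpow_mul]
  have h2 : (ε (of w.1)) ^ (p : ℤ) = 1 := by
    have : (p : ℤ) • Multiplicative.toAdd (ε (of w.1)) = 0 := by simp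
    exact this
  rw [h2, one_zpow]

theorem all_letters {a : X} (K : List (X × Bool)) (h : ∀ w ∈ K, w.1 = a) :
    (mk K : FreeGroup X) = of a ^ (Multiplicative.toAdd (ex a (mk K))) := by
  induction K with
  | nil => rw [mk_nil]; simp
  | cons w K ih =>
    have h1 := h w List.mem_cons_self
    have h2 := ih (fun w hw => h w (List.mem_cons_of_mem _ hw))
    rw [mk_cons, h1, map_mul, toAdd_mul, zpow_add, ← h2]
    congr 1
    cases w.2
    · simp [ex_of_self]
    · simp [ex_of_self]

theorem fp_power {z : X} {r : FreeGroup X} (h : kill z r = 1) : FP r z := by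
  intro g hg
  have := hom_eq_one_of_mem (kill z) h hg
  rwa [kill_incl] at this

/-- The substitution used when no exponent sum vanishes. -/
noncomputable def sub (t : X) (α : ℤ) (k : X → ℤ) : FreeGroup X →* FreeGroup X :=
  haveI := Classical.decEq X
  FreeGroup.lift (fun x => if x = t then of t ^ α else of x * of t ^ k x)

theorem sub_of_self (t : X) (α : ℤ) (k : X → ℤ) : sub t α k (of t) = of t ^ α := by simp [sub]

theorem sub_of_ne {t x : X} (α : ℤ) (k : X → ℤ) (h : x ≠ t) :
    sub t α k (of x) = of x * of t ^ k x := by simp [sub, h]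

section

open Classical in
/-- the exponents: `z ↦ z t^{-τ}` -/
noncomputable def kk (z : X) (τ : ℤ) : X → ℤ := fun x => if x = z then -τ else 0

theorem ex_sub_t {z t : X} (hzt : z ≠ t) (α τ : ℤ) (g : FreeGroup X) :
    ex t (sub t α (kk z τ) g) = (ex t g) ^ α * (ex z g) ^ (-τ) := by
  have : (ex t).comp (sub t α (kk z τ)) =
      (zpowGroupHom α).comp (ex t) * (zpowGroupHom (-τ)).comp (ex z) := by
    ext x
    simp only [MonoidHom.comp_apply, MonoidHom.mul_apply, zpowGroupHom_apply]
    by_cases hx : x = t
    · subst hx
      rw [sub_of_self, map_zpow, ex_of_self, ex_of_ne hzt.symm]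
      simp
    · rw [sub_of_ne α _ hx, map_mul, map_zpow, ex_of_self, ex_of_ne hx]
      by_cases hxz : x = z
      · subst hxz
        simp [kk, ex_of_self]
      · simp [kk, hxz, ex_of_ne hxz]
  exact DFunLike.congr_fun this g

theorem ex_sub_z {z t : X} (hzt : z ≠ t) (α τ : ℤ) (g : FreeGroup X) :
    ex z (sub t α (kk z τ) g) = ex z g := by
  have : (ex z).comp (sub t α (kk z τ)) = ex z := by
    ext x
    simp only [MonoidHom.comp_apply]
    by_cases hx : x = t
    · subst hx
      rw [sub_of_self, map_zpow, ex_of_ne hzt.symm]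
      simp
    · rw [sub_of_ne α _ hx, map_mul, map_zpow, ex_of_ne hzt.symm]
      simp
  exact DFunLike.congr_fun this g

end

theorem filter_lt [DecidableEq X] {L : List (X × Bool)} {t : X} {b : Bool} (h : (t, b) ∈ L) :
    (L.filter (fun a => a.1 ≠ t)).length < L.length := by
  apply List.length_filter_lt_length_iff_exists.2
  exact ⟨(t, b), h, by simp⟩

/-- exponent sum zero case -/
theorem case_zero {n : ℕ} (IH : IHyp.{u} n) (L : List (X × Bool)) (hn : L.length ≤ n)
    {t : X} {b : Bool} (ht : (t, b) ∈ L) (h0 : ex t (mk L) = 1) :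
    (∀ z, Proper (mk L) z → FP (mk L) z) ∧
    (∀ p : ℕ, p.Prime → ∀ ε : FreeGroup X →* Multiplicative (ZMod p),
      ε (mk L) ≠ 1 → TP p (mk L)) := by
  classical
  obtain ⟨L', h, e1, e2, -⟩ := rewriting t (MonoidHom.id _) 1 (fun _ => 0) (by simp)
    (by intro x _; simp) L
  rw [MonoidHom.id_apply] at e1
  have hh : h = 0 := by
    rw [e1, map_mul, ex_rho, one_mul, map_zpow, ex_of_self] at h0
    have := congrArg Multiplicative.toAdd h0
    simpa using this
  rw [hh, zpow_zero, mul_one] at e1
  have h3 := filter_lt ht
  exact cover_step IH L' (by omega) 1 (by rw [e1]; simp)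

/-- the substituted relator -/
theorem case_sub {n : ℕ} (IH : IHyp.{u} n) (L : List (X × Bool)) (hn : L.length ≤ n)
    {t z : X} {b : Bool} (ht : (t, b) ∈ L) (hzt : z ≠ t) :
    let r' := sub t (Multiplicative.toAdd (ex z (mk L)))
      (kk z (Multiplicative.toAdd (ex t (mk L)))) (mk L)
    (∀ z, Proper r' z → FP r' z) ∧
    (∀ p : ℕ, p.Prime → ∀ ε : FreeGroup X →* Multiplicative (ZMod p),
      ε r' ≠ 1 → TP p r') := by
  classical
  intro r'
  set α := Multiplicative.toAdd (ex z (mk L)) with hα
  set τ := Multiplicative.toAdd (ex t (mk L)) with hτ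
  obtain ⟨L', h, e1, e2, -⟩ := rewriting t (sub t α (kk z τ)) α (kk z τ) (sub_of_self _ _ _)
    (fun x hx => sub_of_ne _ _ hx) L
  have h0 : ex t r' = 1 := by
    show ex t (sub t α (kk z τ) (mk L)) = 1
    rw [ex_sub_t hzt]
    apply Multiplicative.toAdd.injective
    rw [toAdd_mul, toAdd_zpow, toAdd_zpow, toAdd_one, ← hα, ← hτ]
    simp only [smul_eq_mul]
    ring
  have hh : h = 0 := by
    have e3 : r' = rho t (mk L') * of t ^ h := e1
    rw [e3, map_mul, ex_rho, one_mul, map_zpow, ex_of_self] at h0
    have := congrArg Multiplicative.toAdd h0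
    simpa using this
  rw [hh, zpow_zero, mul_one] at e1
  have h3 := filter_lt ht
  exact cover_step IH L' (by omega) 1 (by
    show rho t (mk L') = 1 * (sub t α (kk z τ) (mk L)) * 1⁻¹
    rw [e1]; simp)

theorem main_step {n : ℕ} (IH : IHyp.{u} n) (L : List (X × Bool)) (hn : L.length ≤ n) :
    (∀ z, Proper (mk L) z → FP (mk L) z) ∧
    (∀ p : ℕ, p.Prime → ∀ ε : FreeGroup X →* Multiplicative (ZMod p),
      ε (mk L) ≠ 1 → TP p (mk L)) := by
  classical
  by_cases hzero : ∃ w ∈ L, ex w.1 (mk L) = 1
  · obtain ⟨w, hw, hw0⟩ := hzero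
    exact case_zero IH L hn (t := w.1) (b := w.2) hw hw0
  push Not at hzero
  constructor
  · intro z hz
    by_cases hall : ∀ w ∈ L, w.1 = z
    · apply fp_power
      rw [all_letters L hall, map_zpow, kill_of_self, one_zpow]
    · push Not at hall
      obtain ⟨w, hw, hwz⟩ := hall
      obtain ⟨t, b⟩ := w
      simp only at hwz
      -- `z` occurs
      have hzocc : ∃ b, (z, b) ∈ L := by
        by_contra hcon
        push Not at hcon
        apply hz 1
        have : (1 : FreeGroup X) * mk L * 1⁻¹ = mk L := by simp
        rw [this]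
        apply mem_range_of_not_occurs
        intro a ha haz
        apply hcon a.2
        rw [← haz]
        exact ha
      obtain ⟨bz, hbz⟩ := hzocc
      have hcase := (case_sub IH L hn hw hwz.symm).1 z
      set α := Multiplicative.toAdd (ex z (mk L)) with hα
      set τ := Multiplicative.toAdd (ex t (mk L)) with hτ
      have hα0 : α ≠ 0 := by
        intro h
        apply hzero _ hbz
        exact Multiplicative.toAdd.injective (by rw [← hα, h]; rfl)
      have hFP := hcase (by
        apply proper_of_ex
        rw [ex_sub_z hwz.symm]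
        exact hzero _ hbz)
      -- transfer
      intro g hg
      have h1 : sub t α (kk z τ) (incl z g) ∈
          Subgroup.normalClosure {sub t α (kk z τ) (mk L)} := map_normalClosure _ hg
      set tz : {x : X // x ≠ z} := ⟨t, hwz⟩ with htz
      have h2 : sub t α (kk z τ) (incl z g) = incl z (sub tz α (fun _ => 0) g) := by
        have : (sub t α (kk z τ)).comp (incl z) = (incl z).comp (sub tz α (fun _ => 0)) := by
          ext x
          simp only [MonoidHom.comp_apply, FreeGroup.map.of]
          by_cases hx : x = tz
          · subst hx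
            rw [sub_of_self, htz, sub_of_self, map_zpow, FreeGroup.map.of]
          · have hx' : x.1 ≠ t := fun h => hx (Subtype.ext h)
            rw [sub_of_ne _ _ hx, sub_of_ne _ _ hx']
            simp [kk, x.2]
        exact DFunLike.congr_fun this g
      rw [h2] at h1
      have h3 := hFP _ h1
      exact pow_injective _ α hα0 (sub_of_self _ _ _)
        (fun x hx => by rw [sub_of_ne _ _ hx]; simp) g h3
  · intro p hp ε hε
    obtain ⟨w, hw, hwp⟩ := exists_letter L ε hε
    obtain ⟨a, ba⟩ := w
    simp only at hwp
    by_cases hall : ∀ w ∈ L, w.1 = a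
    · have h1 := all_letters L hall
      set α := Multiplicative.toAdd (ex a (mk L)) with hα
      have hα0 : α.natAbs ≠ 0 := by
        intro h
        apply hwp
        rw [Int.natAbs_eq_zero.1 h]
        exact dvd_zero _
      have hcop : Nat.Coprime p α.natAbs := by
        rw [Nat.Prime.coprime_iff_not_dvd hp]
        intro h
        apply hwp
        exact Int.natCast_dvd.2 h
      have h2 : TP p (of a ^ α.natAbs : FreeGroup X) := tp_pow hα0 hp hcop
      have h3 : Subgroup.normalClosure {(mk L : FreeGroup X)} =
          Subgroup.normalClosure {(of a ^ α.natAbs : FreeGroup X)} := by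
        rw [h1]
        rcases le_total 0 α with h | h
        · have : α = (α.natAbs : ℤ) := by omega
          have h4 : (of a ^ α : FreeGroup X) = of a ^ α.natAbs := by
            conv_lhs => rw [this]
            rw [zpow_natCast]
          rw [h4]
        · have : α = -(α.natAbs : ℤ) := by omega
          have h4 : (of a ^ α : FreeGroup X) = (of a ^ α.natAbs)⁻¹ := by
            conv_lhs => rw [this]
            rw [zpow_neg, zpow_natCast]
          rw [h4]
          apply le_antisymm
          · apply Subgroup.normalClosure_le_normal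
            intro x hx
            rw [Set.mem_singleton_iff] at hx
            subst hx
            exact inv_mem (Subgroup.subset_normalClosure rfl)
          · apply Subgroup.normalClosure_le_normal
            intro x hx
            rw [Set.mem_singleton_iff] at hx
            subst hx
            exact (Subgroup.inv_mem_iff _).1 (Subgroup.subset_normalClosure rfl)
      intro g hg
      rw [h3] at hg ⊢
      exact h2 g hg
    · push Not at hall
      obtain ⟨w, hw', hwa⟩ := hall
      obtain ⟨t, b⟩ := w
      simp only at hwa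
      have hcase := (case_sub IH L hn hw' hwa.symm).2 p hp
      set α := Multiplicative.toAdd (ex a (mk L)) with hα
      set τ := Multiplicative.toAdd (ex t (mk L)) with hτ
      have hα0 : α ≠ 0 := by
        intro h
        apply hwp
        rw [h]
        exact dvd_zero _
      have hTP := hcase ((AddMonoidHom.toMultiplicative (Int.castAddHom (ZMod p))).comp (ex a)) (by
        rw [MonoidHom.comp_apply, ex_sub_z hwa.symm]
        intro h
        have h5 : ((α : ℤ) : ZMod p) = 0 := congrArg Multiplicative.toAdd h
        exact hwp ((ZMod.intCast_zmod_eq_zero_iff_dvd _ _).1 h5))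
      intro g hg
      have h1 : (sub t α (kk a τ) g) ^ p ∈
          Subgroup.normalClosure {sub t α (kk a τ) (mk L)} := by
        rw [← map_pow]
        exact map_normalClosure _ hg
      have h2 := hTP _ h1
      exact embedding _ α hα0 (kk a τ) (sub_of_self _ _ _) (fun x hx => sub_of_ne _ _ hx) _ _ h2

theorem ihyp (n : ℕ) : IHyp.{u} n := by
  induction n with
  | zero => intro Y M hM; omega
  | succ n ih =>
    intro Y M hM
    obtain ⟨L, c, hc, hmin, hlen⟩ := exists_lmin (mk M) M 1 (by simp)
    have h1 := main_step ih L (by omega)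
    have hN : Subgroup.normalClosure {(mk L : FreeGroup Y)} = Subgroup.normalClosure {mk M} := by
      rw [hc, normalClosure_conj]
    constructor
    · intro z hz g hg
      have h2 : Proper (mk L) z := by
        rw [hc]
        exact hz.conj c
      apply h1.1 z h2 g
      rwa [hN]
    · intro p hp ε hε g hg
      have h2 : ε (mk L) ≠ 1 := by
        rw [hc, hom_conj]
        exact hε
      have h3 := h1.2 p hp ε h2
      rw [← hN] at hg ⊢
      exact h3 g hg

/-- **Magnus' Freiheitssatz**. -/
theorem freiheitssatz (r : FreeGroup X) (z : X)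
    (h : ∀ c : FreeGroup X, c * r * c⁻¹ ∉
      (FreeGroup.map (Subtype.val : {x : X // x ≠ z} → X)).range) :
    Function.Injective
      ((PresentedGroup.mk {r}).comp (FreeGroup.map (Subtype.val : {x : X // x ≠ z} → X))) := by
  obtain ⟨L, rfl⟩ : ∃ L, mk L = r := Quot.exists_rep r
  rw [injective_iff_map_eq_one]
  intro g hg
  exact ((ihyp (L.length + 1)) X L (by omega)).1 z h g (PresentedGroup.mk_eq_one_iff.1 hg)

/-- **Theorem T_p.** If some homomorphism `F(X) → ℤ/p` does not kill the relator `r`, then the
one-relator group `⟨X | r⟩` has no element of order `p`. -/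
theorem no_torsion {p : ℕ} (hp : p.Prime) (r : FreeGroup X)
    (ε : FreeGroup X →* Multiplicative (ZMod p)) (hε : ε r ≠ 1) (g : PresentedGroup {r})
    (hg : g ^ p = 1) : g = 1 := by
  obtain ⟨L, rfl⟩ : ∃ L, mk L = r := Quot.exists_rep r
  obtain ⟨y, rfl⟩ := PresentedGroup.mk_surjective _ g
  rw [← map_pow] at hg
  exact PresentedGroup.mk_eq_one_iff.2
    (((ihyp (L.length + 1)) X L (by omega)).2 p hp ε hε y (PresentedGroup.mk_eq_one_iff.1 hg))

end OneRel
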