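import Pool.Agent.Lib.MP_8396f3_al.Magnus

/-!
# A criterion for a group not to be a one-relator group
-/

universe u v

namespace OneRel

/-- Homomorphisms from a free group to `A`. -/
def homEquiv (X : Type u) (A : Type v) [Group A] : (FreeGroup X →* A) ≃ (X → A) :=
  FreeGroup.lift.symm

/-- A nonabelian group `G` with an element of order `p` and exactly `p` homomorphisms to `ℤ/p`
is not a one-relator group. -/
theorem not_oneRelator {G : Type v} [Group G] {p : ℕ} (hp : p.Prime) (g : G) (hg : g ^ p = 1)
    (hg1 : g ≠ 1) (hcard : Nat.card (G →* Multiplicative (ZMod p)) = p)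
    (hnc : ∃ a b : G, a * b ≠ b * a) (X : Type u) (r : FreeGroup X) :
    IsEmpty (G ≃* PresentedGroup {r}) := by
  classical
  have : Fact p.Prime := ⟨hp⟩
  refine ⟨fun e => ?_⟩
  by_cases h : ∃ ε : FreeGroup X →* Multiplicative (ZMod p), ε r ≠ 1
  · obtain ⟨ε, hε⟩ := h
    apply hg1
    apply e.injective
    rw [map_one]
    apply no_torsion hp r ε hε
    rw [← map_pow, hg, map_one]
  · push Not at h
    -- homomorphisms `G → ℤ/p` are the same as functions `X → ℤ/p`
    have hl : ∀ f : FreeGroup X →* Multiplicative (ZMod p), ∀ s ∈ ({r} : Set (FreeGroup X)),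
        FreeGroup.lift (fun x => f (FreeGroup.of x)) s = 1 := by
      intro f s hs
      rw [Set.mem_singleton_iff] at hs
      subst hs
      have : FreeGroup.lift (fun x => f (FreeGroup.of x)) = f := by
        ext x
        simp
      rw [this, h f]
    have hl2 : ∀ f : FreeGroup X →* Multiplicative (ZMod p),
        (PresentedGroup.toGroup (hl f)).comp (PresentedGroup.mk {r}) = f := by
      intro f
      apply FreeGroup.ext_hom
      intro x
      exact PresentedGroup.toGroup.of (hl f)
    have e1 : (PresentedGroup {r} →* Multiplicative (ZMod p)) ≃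
        (FreeGroup X →* Multiplicative (ZMod p)) :=
      { toFun := fun f => f.comp (PresentedGroup.mk {r})
        invFun := fun f => PresentedGroup.toGroup (hl f)
        left_inv := fun f => by
          apply MonoidHom.ext
          intro y
          obtain ⟨z, rfl⟩ := PresentedGroup.mk_surjective _ y
          exact DFunLike.congr_fun (hl2 (f.comp (PresentedGroup.mk {r}))) z
        right_inv := fun f => hl2 f }
    have e2 : (G →* Multiplicative (ZMod p)) ≃ (PresentedGroup {r} →* Multiplicative (ZMod p)) :=
      { toFun := fun f => f.comp e.symm.toMonoidHom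
        invFun := fun f => f.comp e.toMonoidHom
        left_inv := fun f => by ext x; simp
        right_inv := fun f => by ext x; simp }
    have h1 : Nat.card (X → Multiplicative (ZMod p)) = p :=
      (Nat.card_congr ((e2.trans (e1.trans (homEquiv X _))).symm)).trans hcard
    have hX : Nat.card X = 1 := by
      rcases finite_or_infinite X with hfin | hinf
      · have := Fintype.ofFinite X
        rw [Nat.card_eq_fintype_card, Fintype.card_fun, Fintype.card_multiplicative,
          ZMod.card] at h1
        rw [Nat.card_eq_fintype_card]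
        have h2 : p ^ Fintype.card X = p ^ 1 := by rw [h1, pow_one]
        exact Nat.pow_right_injective hp.two_le h2
      · exfalso
        have : Infinite (X → Multiplicative (ZMod p)) := by
          have : Nontrivial (Multiplicative (ZMod p)) := inferInstance
          exact Function.infinite_of_left
        rw [Nat.card_eq_zero_of_infinite] at h1
        exact hp.ne_zero h1.symm
    obtain ⟨a, b, hab⟩ := hnc
    apply hab
    apply e.injective
    rw [map_mul, map_mul]
    rw [Nat.card_eq_one_iff_unique] at hX
    obtain ⟨hs, hne⟩ := hX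
    obtain ⟨x0⟩ := hne
    have hpow : ∀ y : FreeGroup X, ∃ n : ℤ, y = FreeGroup.of x0 ^ n := by
      intro y
      induction y using FreeGroup.induction_on with
      | C1 => exact ⟨0, by simp⟩
      | of x => exact ⟨1, by rw [Subsingleton.elim x x0, zpow_one]⟩
      | inv_of x _ => exact ⟨-1, by rw [Subsingleton.elim x x0, zpow_neg, zpow_one]⟩
      | mul x y hx hy =>
        obtain ⟨n, rfl⟩ := hx
        obtain ⟨m, rfl⟩ := hy
        exact ⟨n + m, by rw [zpow_add]⟩
    obtain ⟨y1, h1⟩ := PresentedGroup.mk_surjective _ (e a)
    obtain ⟨y2, h2⟩ := PresentedGroup.mk_surjective _ (e b)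
    obtain ⟨n, hn⟩ := hpow y1
    obtain ⟨m, hm⟩ := hpow y2
    rw [← h1, ← h2, ← map_mul, ← map_mul, hn, hm, ← zpow_add, ← zpow_add, add_comm]

end OneRel
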